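import Pool.Agent.Helper17_MTB.Gen

/-!
# MT100B, module LAD: the rotations in the planes of a vector and its generic translate
-/

set_option autoImplicit false
set_option linter.unusedSectionVars false

universe u v w

namespace Pool.Agent.MT100B.H17

open MvPolynomial Matrix Pool.Agent.Helper78_MT Pool.Agent.Helper3_MT

variable {n : Type*} [Fintype n] [DecidableEq n]

section poly
variable {F K : Type*} [Field F] [Field K] [Algebra F K]

/-- the polynomial `x ⬝ M y` -/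
noncomputable def lp (x y : n → F) : MvPolynomial (n × n) F :=
  ∑ i, ∑ j, C (x i * y j) * X (i, j)

theorem pev_lp (M : Matrix n n K) (x y : n → F) :
    pev M (lp x y) = (fun i => algebraMap F K (x i)) ⬝ᵥ (M *ᵥ (fun i => algebraMap F K (y i))) := by
  unfold lp
  simp only [map_sum, map_mul, pev_C, pev_X, dotProduct, mulVec, Finset.mul_sum]
  apply Finset.sum_congr rfl
  intro i _
  apply Finset.sum_congr rfl
  intro j _
  ring

theorem pev_lp' (M : Matrix n n F) (x y : n → F) : pev M (lp x y) = x ⬝ᵥ (M *ᵥ y) := by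
  rw [pev_lp]
  rfl

/-- the polynomial `(M v) ⬝ e (M v)` -/
noncomputable def qp (e : Matrix n n F) (v : n → F) : MvPolynomial (n × n) F :=
  ∑ i, ∑ j, C (e i j) * (lp (Pi.single i 1) v * lp (Pi.single j 1) v)

theorem single_map (i : n) : (fun k => algebraMap F K ((Pi.single i 1 : n → F) k)) =
    (Pi.single i 1 : n → K) := by
  ext k
  by_cases h : k = i
  · subst h; simp
  · simp [Pi.single_eq_of_ne h]

theorem pev_qp (M : Matrix n n K) (e : Matrix n n F) (v : n → F) :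
    pev M (qp e v) = (M *ᵥ (fun i => algebraMap F K (v i))) ⬝ᵥ
      (e.map (algebraMap F K) *ᵥ (M *ᵥ (fun i => algebraMap F K (v i)))) := by
  unfold qp
  simp only [map_sum, map_mul, pev_C, pev_lp, single_map, single_one_dotProduct]
  rw [dotProduct]
  apply Finset.sum_congr rfl
  intro i _
  obtain ⟨y, hy⟩ : ∃ y, y = M *ᵥ (fun i => algebraMap F K (v i)) := ⟨_, rfl⟩
  rw [← hy]
  change _ = y i * ∑ j, algebraMap F K (e i j) * y j
  rw [Finset.mul_sum]
  apply Finset.sum_congr rfl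
  intro j _
  ring

theorem pev_qp' (M : Matrix n n F) (e : Matrix n n F) (v : n → F) :
    pev M (qp e v) = (M *ᵥ v) ⬝ᵥ (e *ᵥ (M *ᵥ v)) := by
  rw [pev_qp]
  rfl

end poly

section main
variable {F Γ : Type*} [Field F] [CharZero F] [Group Γ]

/-- the situation -/
structure Dt (e : Matrix n n F) (ρ : Γ →* GL n F) (Γ₁ : Subgroup Γ) (v : n → F) (γ₀ : Γ) :
    Prop where
  symm : eᵀ = e
  det : IsUnit e.det
  normal : Γ₁.Normal
  prime : (JJ ρ Γ₁).IsPrime
  sim : ∀ γ, ∃ μ : F, μ ≠ 0 ∧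
    (ρ γ : Matrix n n F)ᵀ * e * (ρ γ : Matrix n n F) = μ • e
  irr : ∀ U : Submodule F (n → F), (∀ γ ∈ Γ₁, ∀ x ∈ U, (ρ γ : Matrix n n F) *ᵥ x ∈ U) →
    U = ⊥ ∨ U = ⊤
  vne : v ⬝ᵥ (e *ᵥ v) ≠ 0
  refl : (ρ γ₀ : Matrix n n F) = rf e v
  card : 2 < Fintype.card n

variable {e : Matrix n n F} {ρ : Γ →* GL n F} {Γ₁ : Subgroup Γ} {v : n → F} {γ₀ : Γ}

/-- the translates of a nonzero vector span -/
theorem Dt.span (h : Dt e ρ Γ₁ v γ₀) {x : n → F} (hx : x ≠ 0) :
    Submodule.span F {y | ∃ γ ∈ Γ₁, y = (ρ γ : Matrix n n F) *ᵥ x} = ⊤ := by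
  rcases h.irr (Submodule.span F {y | ∃ γ ∈ Γ₁, y = (ρ γ : Matrix n n F) *ᵥ x}) (by
    intro γ hγ y hy
    induction hy using Submodule.span_induction with
    | mem y hy =>
      obtain ⟨δ, hδ, rfl⟩ := hy
      apply Submodule.subset_span
      refine ⟨γ * δ, Γ₁.mul_mem hγ hδ, ?_⟩
      rw [map_mul, Units.val_mul, mulVec_mulVec]
    | zero => rw [mulVec_zero]; exact Submodule.zero_mem _
    | add a b _ _ ha hb => rw [mulVec_add]; exact Submodule.add_mem _ ha hb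
    | smul c a _ ha => rw [mulVec_smul]; exact Submodule.smul_mem _ _ ha) with h1 | h1
  · exfalso
    apply hx
    have h2 : x ∈ Submodule.span F {y | ∃ γ ∈ Γ₁, y = (ρ γ : Matrix n n F) *ᵥ x} :=
      Submodule.subset_span ⟨1, Γ₁.one_mem, by rw [map_one, Units.val_one, one_mulVec]⟩
    rw [h1] at h2
    exact (Submodule.mem_bot F).1 h2
  · exact h1

theorem Dt.v0 (h : Dt e ρ Γ₁ v γ₀) : v ≠ 0 := by
  rintro rfl
  exact h.vne (by simp)

/-- a vector orthogonal to everything is zero -/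
theorem nondeg {K : Type*} [Field K] {e : Matrix n n K} (he : eᵀ = e) (hd : IsUnit e.det)
    {x : n → K} (h : ∀ y, x ⬝ᵥ (e *ᵥ y) = 0) : x = 0 := by
  have h1 : e *ᵥ x = 0 := by
    ext j
    have h2 := h (Pi.single j 1)
    rw [psi_symm he, single_one_dotProduct] at h2
    exact h2
  have h2 : e⁻¹ *ᵥ (e *ᵥ x) = x := by
    rw [mulVec_mulVec, nonsing_inv_mul e hd, one_mulVec]
  rw [← h2, h1, mulVec_zero]

/-- the angle is not constant -/
theorem Dt.nc (h : Dt e ρ Γ₁ v γ₀) :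
    lp (e *ᵥ v) v ^ 2 - qp e v * C (v ⬝ᵥ (e *ᵥ v)) ∉ JJ ρ Γ₁ := by
  intro hmem
  obtain ⟨c, hc⟩ : ∃ c, c = v ⬝ᵥ (e *ᵥ v) := ⟨_, rfl⟩
  have hc0 : c ≠ 0 := by rw [hc]; exact h.vne
  -- the function `α`
  obtain ⟨al, hal⟩ : ∃ al : Γ → F, al = fun γ => ((ρ γ : Matrix n n F) *ᵥ v) ⬝ᵥ (e *ᵥ v) := ⟨_, rfl⟩
  have hal' : ∀ γ, pev (ρ γ : Matrix n n F) (lp (e *ᵥ v) v) = al γ := by
    intro γ
    rw [pev_lp', hal, dotProduct_comm]
  have hsq : ∀ γ ∈ Γ₁, ∀ μ : F, (ρ γ : Matrix n n F)ᵀ * e * (ρ γ : Matrix n n F) = μ • e →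
      al γ ^ 2 = μ * c ^ 2 := by
    intro γ hγ μ hμ
    have h1 := hmem γ hγ
    rw [map_sub, map_pow, map_mul, pev_C, hal', pev_qp', psi_sim hμ, ← hc, sub_eq_zero] at h1
    rw [h1]
    change μ * c * c = μ * c ^ 2
    ring
  have hne : ∀ γ ∈ Γ₁, al γ ≠ 0 := by
    intro γ hγ h0
    obtain ⟨μ, hμ0, hμ⟩ := h.sim γ
    have h1 := hsq γ hγ μ hμ
    rw [h0, zero_pow two_ne_zero] at h1
    exact mul_ne_zero hμ0 (pow_ne_zero 2 hc0) h1.symm
  have hmul : ∀ γ ∈ Γ₁, ∀ δ ∈ Γ₁, al (γ * δ) * c = al γ * al δ := by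
    intro γ hγ δ hδ
    obtain ⟨μ, hμ0, hμ⟩ := h.sim γ
    have hgd : ∀ δ : Γ, pev (ρ δ : Matrix n n F)
        (lp ((ρ γ : Matrix n n F)ᵀ *ᵥ (e *ᵥ v)) v) = al (γ * δ) := by
      intro δ
      rw [pev_lp', hal]
      simp only
      rw [map_mul, Units.val_mul, ← mulVec_mulVec, mulVec_transpose, ← dotProduct_mulVec,
        dotProduct_comm]
    have h1 : (lp ((ρ γ : Matrix n n F)ᵀ *ᵥ (e *ᵥ v)) v * C c - C (al γ) * lp (e *ᵥ v) v) *
        (lp ((ρ γ : Matrix n n F)ᵀ *ᵥ (e *ᵥ v)) v * C c + C (al γ) * lp (e *ᵥ v) v) ∈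
          JJ ρ Γ₁ := by
      intro δ hδ
      obtain ⟨ν, hν0, hν⟩ := h.sim δ
      have h2 : (ρ (γ * δ) : Matrix n n F)ᵀ * e * (ρ (γ * δ) : Matrix n n F) = (μ * ν) • e := by
        rw [map_mul, Units.val_mul, transpose_mul]
        have : (ρ δ : Matrix n n F)ᵀ * (ρ γ : Matrix n n F)ᵀ * e *
            ((ρ γ : Matrix n n F) * (ρ δ : Matrix n n F)) =
            (ρ δ : Matrix n n F)ᵀ * ((ρ γ : Matrix n n F)ᵀ * e * (ρ γ : Matrix n n F)) *
              (ρ δ : Matrix n n F) := by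
          simp only [mul_assoc]
        rw [this, hμ, mul_smul_comm, smul_mul_assoc, hν, smul_smul]
      have e1 := hsq _ (Γ₁.mul_mem hγ hδ) _ h2
      have e2 := hsq γ hγ μ hμ
      have e3 := hsq δ hδ ν hν
      rw [map_mul, map_sub, map_add, map_mul, map_mul, pev_C, pev_C, hgd, hal']
      change (al (γ * δ) * c - al γ * al δ) * (al (γ * δ) * c + al γ * al δ) = 0
      linear_combination c ^ 2 * e1 - al δ ^ 2 * e2 - μ * c ^ 2 * e3
    rcases h.prime.mem_or_mem h1 with h2 | h2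
    · have h3 := h2 δ hδ
      rw [map_sub, map_mul, map_mul, pev_C, pev_C, hgd, hal'] at h3
      exact sub_eq_zero.1 h3
    · exfalso
      have h3 := h2 1 Γ₁.one_mem
      have e1 : al 1 = c := by
        rw [hal, hc]
        simp only
        rw [map_one, Units.val_one, one_mulVec]
      rw [map_add, map_mul, map_mul, pev_C, pev_C, hgd, hal', mul_one, e1] at h3
      have h4 : al γ * c + al γ * c = 0 := h3
      have h5 : (2 : F) * (al γ * c) = 0 := by linear_combination h4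
      exact mul_ne_zero two_ne_zero (mul_ne_zero (hne γ hγ) hc0) h5
  have horth : ∀ γ ∈ Γ₁, ∀ δ ∈ Γ₁,
      (((ρ γ : Matrix n n F) *ᵥ v) ⬝ᵥ (e *ᵥ ((ρ δ : Matrix n n F) *ᵥ v))) * c =
        al γ * al δ := by
    intro γ hγ δ hδ
    obtain ⟨μ, hμ0, hμ⟩ := h.sim γ
    have hδ' : (ρ δ : Matrix n n F) = (ρ γ : Matrix n n F) * (ρ (γ⁻¹ * δ) : Matrix n n F) := by
      rw [← Units.val_mul, ← map_mul, mul_inv_cancel_left]
    have h1 : ((ρ γ : Matrix n n F) *ᵥ v) ⬝ᵥ (e *ᵥ ((ρ δ : Matrix n n F) *ᵥ v)) =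
        μ * al (γ⁻¹ * δ) := by
      rw [hδ', ← mulVec_mulVec, psi_sim hμ, hal, psi_symm h.symm]
    have h2 : al γ = μ * al γ⁻¹ := by
      have h3 : v = (ρ γ : Matrix n n F) *ᵥ ((ρ γ⁻¹ : Matrix n n F) *ᵥ v) := by
        rw [mulVec_mulVec, ← Units.val_mul, ← map_mul, mul_inv_cancel, map_one, Units.val_one,
          one_mulVec]
      have h4 : al γ = ((ρ γ : Matrix n n F) *ᵥ v) ⬝ᵥ
          (e *ᵥ ((ρ γ : Matrix n n F) *ᵥ ((ρ γ⁻¹ : Matrix n n F) *ᵥ v))) := by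
        rw [← h3, hal]
      rw [h4, psi_sim hμ, hal, psi_symm h.symm]
    have h3 := hmul γ⁻¹ (Γ₁.inv_mem hγ) δ hδ
    rw [h1, h2]
    linear_combination μ * h3
  have hfix : ∀ γ ∈ Γ₁, (ρ γ : Matrix n n F) *ᵥ v = (al γ / c) • v := by
    intro γ hγ
    rw [← sub_eq_zero]
    apply nondeg h.symm h.det
    intro y
    have hy : y ∈ Submodule.span F {y | ∃ δ ∈ Γ₁, y = (ρ δ : Matrix n n F) *ᵥ v} := by
      rw [h.span h.v0]
      exact Submodule.mem_top
    induction hy using Submodule.span_induction with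
    | mem y hy =>
      obtain ⟨δ, hδ, rfl⟩ := hy
      have h1 := horth γ hγ δ hδ
      have h2 : v ⬝ᵥ (e *ᵥ ((ρ δ : Matrix n n F) *ᵥ v)) = al δ := by
        rw [hal, psi_symm h.symm]
      rw [sub_dotProduct, smul_dotProduct, smul_eq_mul, h2]
      field_simp
      linear_combination h1
    | zero => rw [mulVec_zero, dotProduct_zero]
    | add a b _ _ ha hb => rw [mulVec_add, dotProduct_add, ha, hb, add_zero]
    | smul t a _ ha => rw [mulVec_smul, dotProduct_smul, ha, smul_zero]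
  have htop : Submodule.span F {v} = ⊤ := by
    rcases h.irr (Submodule.span F {v}) (by
      intro γ hγ x hx
      obtain ⟨t, rfl⟩ := Submodule.mem_span_singleton.1 hx
      rw [mulVec_smul, hfix γ hγ]
      exact Submodule.smul_mem _ _ (Submodule.smul_mem _ _ (Submodule.mem_span_singleton_self v)))
      with h1 | h1
    · exact absurd (Submodule.span_singleton_eq_bot.1 h1) h.v0
    · exact h1
  have h1 := finrank_span_le_card (R := F) ({v} : Set (n → F))
  rw [htop, finrank_top, Module.finrank_fintype_fun_eq_card] at h1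
  have h2 := h.card
  simp at h1
  omega

end main

end Pool.Agent.MT100B.H17
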