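import Pool.Agent.Helper17_MTB.Refl

/-!
# MT100B, module LAD: roots of unity and Dickson polynomials
-/

set_option autoImplicit false
set_option linter.unusedSectionVars false

namespace Pool.Agent.MT100B.H17

open Polynomial

variable {F K : Type*} [Field F] [Field K] [CharZero F] [Algebra F K]

/-- if `s` is a root of unity, then `W = (s + 1/s + 2) / 4` is one or a root of a polynomial which
does not vanish at one -/
theorem exists_h1 {s W : K} (hs : s ≠ 0) (hW : s + s⁻¹ = 4 * W - 2) (hW1 : W ≠ 1) {m : ℕ}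
    (hm : 0 < m) (hsm : s ^ m = 1) : ∃ h : F[X], h.eval 1 ≠ 0 ∧ aeval W h = 0 := by
  have : CharZero K := charZero_of_injective_algebraMap (algebraMap F K).injective
  obtain ⟨h, hh⟩ : ∃ h : F[X], h = (dickson 1 (1 : F) m).comp (C 4 * X - C 2) - C 2 := ⟨_, rfl⟩
  have hne : h ≠ 0 := by
    intro h0
    have h1 : h.eval ((9 : F) / 8) = 0 := by rw [h0, eval_zero]
    have h2 : (4 : F) * (9 / 8) - 2 = 2 + 1 / 2 := by norm_num
    rw [hh, eval_sub, eval_comp, eval_C, eval_sub, eval_mul, eval_C, eval_X, eval_C, h2,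
      dickson_one_one_eval_add_inv (2 : F) (1 / 2) (by norm_num) m] at h1
    have h3 : ((2 : F) ^ m - 1) ^ 2 = 0 := by
      have h4 : (2 : F) ^ m * (1 / 2) ^ m = 1 := by
        rw [← mul_pow]
        norm_num
      linear_combination (2 : F) ^ m * h1 - h4
    have h5 : (2 : F) ^ m = 1 := by
      have := pow_eq_zero_iff (two_ne_zero) |>.1 h3
      exact sub_eq_zero.1 this
    have h6 : (2 : ℕ) ^ m = 1 := by exact_mod_cast h5
    have h7 : 1 < 2 ^ m := Nat.one_lt_two_pow hm.ne'
    omega
  have hroot : aeval W h = 0 := by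
    have h1 : aeval W h = (h.map (algebraMap F K)).eval W := by
      rw [aeval_def, eval_map]
    have e2 : algebraMap F K 2 = 2 := map_ofNat _ 2
    have e4 : algebraMap F K 4 = 4 := map_ofNat _ 4
    rw [h1, hh, Polynomial.map_sub, Polynomial.map_comp, map_dickson, Polynomial.map_sub,
      Polynomial.map_mul, map_C, map_C, map_X, map_one, e2, e4, eval_sub, eval_comp,
      eval_C, eval_sub, eval_mul, eval_C, eval_X, eval_C, ← hW,
      dickson_one_one_eval_add_inv s s⁻¹ (mul_inv_cancel₀ hs) m, inv_pow, hsm]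
    norm_num
  obtain ⟨q, hq, hq1⟩ := exists_eq_pow_rootMultiplicity_mul_and_not_dvd h hne 1
  refine ⟨q, ?_, ?_⟩
  · intro h0
    exact hq1 (dvd_iff_isRoot.2 h0)
  · rw [hq, map_mul, map_pow, map_sub, aeval_X, aeval_C, map_one, mul_eq_zero] at hroot
    rcases hroot with h1 | h1
    · exact absurd (sub_eq_zero.1 (eq_zero_of_pow_eq_zero h1)) hW1
    · exact h1

/-- the homogenization of a polynomial in one variable -/
noncomputable def hom {R : Type*} [CommRing R] [Algebra F R] (h : F[X]) (U V : R) : R :=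
  ∑ j ∈ Finset.range (h.natDegree + 1), algebraMap F R (h.coeff j) * U ^ j * V ^ (h.natDegree - j)

theorem hom_map {R S : Type*} [CommRing R] [CommRing S] [Algebra F R] [Algebra F S] (φ : R →ₐ[F] S)
    (h : F[X]) (U V : R) : φ (hom h U V) = hom h (φ U) (φ V) := by
  unfold hom
  rw [map_sum]
  apply Finset.sum_congr rfl
  intro j _
  rw [map_mul, map_mul, map_pow, map_pow, AlgHom.commutes]

theorem hom_eq (h : F[X]) (U V : K) (hV : V ≠ 0) :
    hom h U V = V ^ h.natDegree * aeval (U / V) h := by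
  unfold hom
  rw [aeval_eq_sum_range, Finset.mul_sum]
  apply Finset.sum_congr rfl
  intro j hj
  have hj' : j ≤ h.natDegree := Nat.lt_succ_iff.1 (Finset.mem_range.1 hj)
  rw [Algebra.smul_def, div_pow]
  have h1 : V ^ h.natDegree = V ^ j * V ^ (h.natDegree - j) := by
    rw [← pow_add, Nat.add_sub_cancel' hj']
  rw [h1]
  field_simp

end Pool.Agent.MT100B.H17
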