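import Pool.Agent.Helper17_MTB.Pri
import Pool.Agent.Helper17_MTB.Dick
import Pool.Agent.Helper3_MT.MT

/-!
# MT100B, module LAD: the generic point, reflections in the closure, extension of the base field
-/

set_option autoImplicit false
set_option linter.unusedSectionVars false

universe u v

namespace Pool.Agent.MT100B.H17

open MvPolynomial Matrix Pool.Agent.Helper78_MT Pool.Agent.Helper3_MT

/-- the generic point of a prime ideal -/
theorem exists_generic {F : Type u} [Field F] {n : Type v} (J : Ideal (MvPolynomial (n × n) F))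
    (hJ : J.IsPrime) : ∃ (K : Type (max u v)) (_ : Field K) (_ : Algebra F K) (_ : IsAlgClosed K)
      (ξ : Matrix n n K), ∀ p : MvPolynomial (n × n) F,
        MvPolynomial.aeval (fun ij : n × n => ξ ij.1 ij.2) p = 0 ↔ p ∈ J := by
  let R := MvPolynomial (n × n) F ⧸ J
  let L := FractionRing R
  let K := AlgebraicClosure L
  let φ : MvPolynomial (n × n) F →+* K :=
    (algebraMap L K).comp ((algebraMap R L).comp (Ideal.Quotient.mk J))
  let alg : Algebra F K := (φ.comp MvPolynomial.C).toAlgebra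
  refine ⟨K, inferInstance, alg, inferInstance, fun i j => φ (X (i, j)), ?_⟩
  intro p
  have h1 : (MvPolynomial.aeval (fun ij : n × n => φ (X (ij.1, ij.2))) :
      MvPolynomial (n × n) F →ₐ[F] K).toRingHom = φ := by
    apply MvPolynomial.ringHom_ext
    · intro a
      rw [AlgHom.toRingHom_eq_coe, RingHom.coe_coe, aeval_C]
      rfl
    · intro ij
      rw [AlgHom.toRingHom_eq_coe, RingHom.coe_coe, aeval_X]
  have h2 : MvPolynomial.aeval (fun ij : n × n => φ (X (ij.1, ij.2))) p = φ p :=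
    congrArg (fun f : MvPolynomial (n × n) F →+* K => f p) h1
  rw [h2]
  change algebraMap L K (algebraMap R L (Ideal.Quotient.mk J p)) = 0 ↔ p ∈ J
  rw [map_eq_zero_iff _ (algebraMap L K).injective,
    map_eq_zero_iff _ (IsFractionRing.injective R L), Ideal.Quotient.eq_zero_iff_mem]

variable {n : Type*} [Fintype n] [DecidableEq n]

section field
variable {K : Type*} [Field K]

theorem psi_sim {e g : Matrix n n K} {μ : K} (hg : gᵀ * e * g = μ • e) (u w : n → K) :
    (g *ᵥ u) ⬝ᵥ (e *ᵥ (g *ᵥ w)) = μ * (u ⬝ᵥ (e *ᵥ w)) := by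
  have h1 : (g *ᵥ u) ⬝ᵥ (e *ᵥ (g *ᵥ w)) = u ⬝ᵥ ((gᵀ * e * g) *ᵥ w) := by
    rw [← mulVec_mulVec, ← mulVec_mulVec, dotProduct_mulVec u gᵀ, vecMul_transpose]
  rw [h1, hg, smul_mulVec, dotProduct_smul, smul_eq_mul]

theorem vec_e {e g : Matrix n n K} (he : eᵀ = e) {μ : K} (hu : IsUnit g.det) (hμ : μ ≠ 0)
    (hg : gᵀ * e * g = μ • e) (v : n → K) : (e *ᵥ v) ᵥ* g⁻¹ = μ⁻¹ • (e *ᵥ (g *ᵥ v)) := by
  have h1 : (e *ᵥ (g *ᵥ v)) ᵥ* g = μ • (e *ᵥ v) := by
    rw [← mulVec_transpose, mulVec_mulVec, mulVec_mulVec, hg, smul_mulVec]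
  have h2 : (e *ᵥ v) = μ⁻¹ • ((e *ᵥ (g *ᵥ v)) ᵥ* g) := by
    rw [h1, smul_smul, inv_mul_cancel₀ hμ, one_smul]
  rw [h2, smul_vecMul, vecMul_vecMul, mul_nonsing_inv g hu, vecMul_one]

theorem rf_conj {e g : Matrix n n K} (he : eᵀ = e) {μ : K} (hu : IsUnit g.det) (hμ : μ ≠ 0)
    (hg : gᵀ * e * g = μ • e) (v : n → K) : rf e (g *ᵥ v) = g * rf e v * g⁻¹ := by
  unfold rf
  rw [psi_sim hg, mul_sub, mul_one, sub_mul, mul_nonsing_inv g hu, mul_smul_comm, smul_mul_assoc,
    mul_vecMulVec, vecMulVec_mul, vec_e he hu hμ hg, vecMulVec_smul, smul_smul]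
  congr 2
  rw [div_mul_eq_mul_div, ← div_eq_mul_inv, div_div, mul_comm μ]

theorem wd_conj {e g : Matrix n n K} (he : eᵀ = e) {μ : K} (hu : IsUnit g.det) (hμ : μ ≠ 0)
    (hg : gᵀ * e * g = μ • e) (u w : n → K) :
    g * wd e u w * g⁻¹ = μ⁻¹ • wd e (g *ᵥ u) (g *ᵥ w) := by
  unfold wd
  rw [mul_sub, sub_mul, mul_vecMulVec, mul_vecMulVec, vecMulVec_mul, vecMulVec_mul,
    vec_e he hu hμ hg, vec_e he hu hμ hg, vecMulVec_smul, vecMulVec_smul, smul_sub]

theorem rf_sq [NeZero (2 : K)] {e : Matrix n n K} {v : n → K} (hv : v ⬝ᵥ (e *ᵥ v) ≠ 0) :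
    rf e v * rf e v = 1 := by
  unfold rf
  simp only [sub_mul, mul_sub, one_mul, mul_one, smul_mul_smul_comm, vv, smul_smul]
  have h1 : 2 / (v ⬝ᵥ (e *ᵥ v)) * (2 / (v ⬝ᵥ (e *ᵥ v))) * (v ⬝ᵥ (e *ᵥ v)) =
      2 * (2 / (v ⬝ᵥ (e *ᵥ v))) := by
    field_simp
  rw [h1]
  module

end field

section base
variable {F K : Type*} [Field F] [Field K] [Algebra F K]

theorem map_dot (a b : n → F) : (fun i => algebraMap F K (a i)) ⬝ᵥ (fun i => algebraMap F K (b i)) =
    algebraMap F K (a ⬝ᵥ b) := by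
  simp [dotProduct]

theorem map_vec (M : Matrix n n F) (a : n → F) :
    (M.map (algebraMap F K)) *ᵥ (fun i => algebraMap F K (a i)) =
      fun i => algebraMap F K ((M *ᵥ a) i) := by
  ext i
  simp [mulVec, dotProduct]

theorem rf_map (e : Matrix n n F) (v : n → F) :
    rf (e.map (algebraMap F K)) (fun i => algebraMap F K (v i)) = (rf e v).map (algebraMap F K) := by
  unfold rf
  rw [map_vec, map_dot]
  have h2 : algebraMap F K 2 = 2 := map_ofNat _ 2
  ext i j
  simp [vecMulVec_apply, Matrix.one_apply, apply_ite (algebraMap F K), h2]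

theorem wd_map (e : Matrix n n F) (u w : n → F) :
    wd (e.map (algebraMap F K)) (fun i => algebraMap F K (u i)) (fun i => algebraMap F K (w i)) =
      (wd e u w).map (algebraMap F K) := by
  unfold wd
  rw [map_vec, map_vec]
  ext i j
  simp [vecMulVec_apply]

theorem dr_map (X : Matrix n n F) (p : MvPolynomial (n × n) F) :
    dr (X.map (algebraMap F K)) (MvPolynomial.map (algebraMap F K) p) =
      MvPolynomial.map (algebraMap F K) (dr X p) := by
  induction p using MvPolynomial.induction_on with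
  | C c => simp
  | add p q hp hq => rw [map_add, map_add, hp, hq, map_add, map_add]
  | mul_X p ij hp =>
    rw [Derivation.leibniz, map_add, map_mul, Derivation.leibniz]
    simp only [smul_eq_mul, map_mul, hp, MvPolynomial.map_X, dr_X, map_sum]
    congr 2
    apply Finset.sum_congr rfl
    intro k _
    rw [MvPolynomial.smul_eq_C_mul, MvPolynomial.smul_eq_C_mul, map_mul, MvPolynomial.map_C,
      MvPolynomial.map_X, Matrix.map_apply]

/-- extension of the base field of the Lie algebra of a set of matrices -/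
theorem lie_basechange {S : Set (Matrix n n F)} {X : Matrix n n F} (hX : X ∈ lieOf S) :
    X.map (algebraMap F K) ∈ lieOf ((fun M : Matrix n n F => M.map (algebraMap F K)) '' S) := by
  classical
  rw [mem_lieOf] at hX ⊢
  intro q hq g hg
  obtain ⟨g₀, hg₀, rfl⟩ := hg
  let B := Module.Basis.ofVectorSpace F K
  let co : Module.Basis.ofVectorSpaceIndex F K → MvPolynomial (n × n) F := fun i =>
    ∑ m ∈ q.support, monomial m (B.repr (coeff m q) i)
  let s₀ : Finset (Module.Basis.ofVectorSpaceIndex F K) :=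
    q.support.biUnion (fun m => (B.repr (coeff m q)).support)
  have hcoeff : ∀ i m, coeff m (co i) = B.repr (coeff m q) i := by
    intro i m
    simp only [co, coeff_sum, coeff_monomial]
    rw [Finset.sum_ite_eq' q.support m]
    split_ifs with h
    · rfl
    · rw [notMem_support_iff.mp h]; simp
  have hdec : q = ∑ i ∈ s₀, C (B i) * MvPolynomial.map (algebraMap F K) (co i) := by
    ext m
    rw [coeff_sum]
    simp only [coeff_C_mul, coeff_map, hcoeff]
    by_cases hm : m ∈ q.support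
    · have h1 := B.linearCombination_repr (coeff m q)
      conv_lhs => rw [← h1]
      rw [Finsupp.linearCombination_apply,
        Finsupp.sum_of_support_subset (s := s₀) _ (by
          intro i hi
          exact Finset.mem_biUnion.mpr ⟨m, hm, hi⟩) _ (by simp)]
      apply Finset.sum_congr rfl
      intro i _
      rw [Algebra.smul_def, mul_comm]
    · rw [notMem_support_iff.mp hm]; simp
  have hco : ∀ i ∈ s₀, ∀ s ∈ S, pev s (co i) = 0 := by
    intro i hi s hs
    have h1 := hq _ ⟨s, hs, rfl⟩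
    rw [hdec, map_sum] at h1
    have h2 : ∑ i ∈ s₀, pev s (co i) • B i = 0 := by
      rw [← h1]
      apply Finset.sum_congr rfl
      intro j _
      rw [map_mul, pev_C, pev_map, pev_algebraMap, Algebra.smul_def, mul_comm]
      rfl
    exact linearIndependent_iff'.mp B.linearIndependent s₀ _ h2 i hi
  rw [hdec, map_sum, map_sum]
  apply Finset.sum_eq_zero
  intro i hi
  have h1 : dr (X.map (algebraMap F K)) (C (B i) * MvPolynomial.map (algebraMap F K) (co i)) =
      C (B i) * MvPolynomial.map (algebraMap F K) (dr X (co i)) := by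
    rw [← MvPolynomial.smul_eq_C_mul, Derivation.map_smul, dr_map, MvPolynomial.smul_eq_C_mul]
  rw [h1, map_mul, pev_map, pev_algebraMap, hX (co i) (hco i hi) g₀ hg₀, map_zero, mul_zero]

end base

section closure
variable {F K Γ : Type*} [Field F] [Field K] [Algebra F K] [Group Γ]

/-- the closure of the image of a normal subgroup is normalised by the image -/
theorem zcl_conj (ρ : Γ →* GL n F) (Γ₁ : Subgroup Γ) [Γ₁.Normal] (γ : Γ) {M : Matrix n n K}
    (hM : M ∈ zcl (imK ρ K Γ₁)) :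
    (ρ γ : Matrix n n F).map (algebraMap F K) * M *
      (ρ γ⁻¹ : Matrix n n F).map (algebraMap F K) ∈ zcl (imK ρ K Γ₁) := by
  have hu : ∀ γ : Γ, IsUnit ((ρ γ : Matrix n n F).map (algebraMap F K)).det := by
    intro γ
    exact imK_unit (K := K) ρ ⊤ _ ⟨γ, Subgroup.mem_top γ, rfl⟩
  refine ⟨?_, ?_⟩
  · rw [det_mul, det_mul]
    exact ((hu γ).mul hM.1).mul (hu γ⁻¹)
  · intro p hp
    rw [← pev_rsub, ← pev_lsub]
    apply hM.2
    rintro _ ⟨δ, hδ, rfl⟩
    rw [pev_lsub, pev_rsub, ← Matrix.map_mul, ← Matrix.map_mul, ← Units.val_mul, ← Units.val_mul,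
      ← map_mul, ← map_mul]
    exact hp _ ⟨γ * δ * γ⁻¹, Subgroup.Normal.conj_mem inferInstance δ hδ γ, rfl⟩

end closure

end Pool.Agent.MT100B.H17
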