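import Pool.Agent.Helper17_MTB.So
import Pool.Agent.Helper64_MTB.Gen
import Pool.Agent.Helper78_M100.Lad5

/-!
# MT100B, module LAD: the monodromy group contains the orthogonal group
-/

set_option autoImplicit false
set_option linter.unusedSectionVars false

universe u v w

namespace Pool.Agent.MT100B.H17

open MvPolynomial Matrix Pool.Agent.Helper78_MT Pool.Agent.Helper3_MT Pool.Agent.MT100

variable {n : Type*} [Fintype n] [DecidableEq n]

section rank
variable {F : Type*} [Field F] [CharZero F]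

/-- a similitude `1 + N` with `N` of rank one is a reflection -/
theorem rank_refl {e R : Matrix n n F} (he : eᵀ = e) (hd : IsUnit e.det)
    (hn : 2 < Fintype.card n) {c : F} (hR : Rᵀ * e * R = c • e) (hr : (R - 1).rank = 1) :
    ∃ v : n → F, v ⬝ᵥ (e *ᵥ v) ≠ 0 ∧ R = rf e v := by
  obtain ⟨w, f, hwf⟩ : ∃ w f : n → F, R - 1 = vecMulVec w f := by
    have h1 : Module.finrank F (LinearMap.range (R - 1).mulVecLin) = 1 := hr
    obtain ⟨⟨w, hwm⟩, hw0, hw⟩ := finrank_eq_one_iff'.mp h1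
    have h2 : ∀ j, ∃ a : F, (R - 1) *ᵥ (Pi.single j 1) = a • w := by
      intro j
      obtain ⟨a, ha⟩ := hw ⟨(R - 1) *ᵥ (Pi.single j 1), ⟨Pi.single j 1, rfl⟩⟩
      exact ⟨a, (congrArg Subtype.val ha).symm⟩
    choose f hf using h2
    refine ⟨w, f, ?_⟩
    ext i j
    have h3 := congrFun (hf j) i
    rw [mulVec_single_one] at h3
    rw [vecMulVec_apply]
    have h4 : (R - 1) i j = (f j • w) i := h3
    rw [h4, Pi.smul_apply, smul_eq_mul, mul_comm]
  have hf0 : f ≠ 0 := by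
    rintro rfl
    rw [vecMulVec_zero] at hwf
    rw [hwf, rank_zero] at hr
    exact zero_ne_one hr
  have hw0 : w ≠ 0 := by
    rintro rfl
    rw [zero_vecMulVec] at hwf
    rw [hwf, rank_zero] at hr
    exact zero_ne_one hr
  have hRR : R = 1 + vecMulVec w f := by rw [← hwf, add_sub_cancel]
  obtain ⟨y, hy⟩ : ∃ y, y = e *ᵥ w := ⟨_, rfl⟩
  obtain ⟨q, hq⟩ : ∃ q, q = w ⬝ᵥ y := ⟨_, rfl⟩
  have hwy : w ᵥ* e = y := by rw [hy, ← mulVec_transpose, he]
  have hexp : (c - 1) • e = vecMulVec f y + vecMulVec y f + q • vecMulVec f f := by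
    have h1 : Rᵀ * e * R = e + vecMulVec f y + vecMulVec y f + q • vecMulVec f f := by
      rw [hRR, transpose_add, transpose_one, transpose_vecMulVec, add_mul, one_mul, vecMulVec_mul,
        hwy, mul_add, mul_one, add_mul, mul_vecMulVec, ← hy, vecMulVec_mul_vecMulVec,
        dotProduct_comm, ← hq, vecMulVec_smul]
      abel
    rw [sub_smul, one_smul, ← hR, h1]
    abel
  have hc1 : c = 1 := by
    by_contra hne
    have h1 : ((c - 1) • e).rank = Fintype.card n := by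
      apply rank_of_isUnit
      rw [isUnit_iff_isUnit_det, det_smul]
      exact ((IsUnit.mk0 _ (sub_ne_zero.2 hne)).pow _).mul hd
    obtain ⟨A, hA⟩ : ∃ A : Matrix n (Fin 2) F, A = Matrix.of (fun i k => ![f i, y i] k) := ⟨_, rfl⟩
    obtain ⟨B, hB⟩ : ∃ B : Matrix (Fin 2) n F,
      B = Matrix.of (fun k j => ![y j + q * f j, f j] k) := ⟨_, rfl⟩
    have h2 : vecMulVec f y + vecMulVec y f + q • vecMulVec f f = A * B := by
      ext i j
      rw [hA, hB, Matrix.mul_apply, Fin.sum_univ_two, Matrix.add_apply, Matrix.add_apply,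
        Matrix.smul_apply, vecMulVec_apply, vecMulVec_apply, vecMulVec_apply, smul_eq_mul]
      simp
      ring
    rw [hexp, h2] at h1
    have h3 := rank_mul_le_left A B
    have h4 := rank_le_card_width A
    rw [Fintype.card_fin] at h4
    omega
  rw [hc1, sub_self, zero_smul] at hexp
  have hent : ∀ i j, f i * y j + y i * f j + q * (f i * f j) = 0 := by
    intro i j
    have h1 := congrFun (congrFun hexp i) j
    rw [Matrix.add_apply, Matrix.add_apply, Matrix.smul_apply, vecMulVec_apply, vecMulVec_apply,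
      vecMulVec_apply, smul_eq_mul] at h1
    exact h1.symm
  obtain ⟨i, hi⟩ : ∃ i, f i ≠ 0 := by
    by_contra hcon
    push Not at hcon
    exact hf0 (funext hcon)
  have hii := hent i i
  have h2y : 2 * y i = -(q * f i) := by
    have h1 : f i * (2 * y i + q * f i) = 0 := by linear_combination hii
    have h2 := (mul_eq_zero.1 h1).resolve_left hi
    linear_combination h2
  have hyj : ∀ j, 2 * y j = -(q * f j) := by
    intro j
    have h1 := hent i j
    have h2 : f i * (2 * y j + q * f j) = 0 := by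
      linear_combination 2 * h1 - f j * h2y
    have h3 := (mul_eq_zero.1 h2).resolve_left hi
    linear_combination h3
  have hq0 : q ≠ 0 := by
    intro h0
    apply hw0
    have h1 : y = 0 := by
      ext j
      have h2 := hyj j
      rw [h0, zero_mul, neg_zero] at h2
      exact (mul_eq_zero.1 h2).resolve_left two_ne_zero
    have h2 : e⁻¹ *ᵥ (e *ᵥ w) = w := by
      rw [mulVec_mulVec, nonsing_inv_mul e hd, one_mulVec]
    rw [← h2, ← hy, h1, mulVec_zero]
  refine ⟨w, by rw [← hy, ← hq]; exact hq0, ?_⟩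
  unfold rf
  rw [← hy, ← hq, hRR, sub_eq_add_neg, ← neg_smul, ← vecMulVec_smul]
  congr 2
  ext j
  rw [Pi.smul_apply, smul_eq_mul]
  have h1 := hyj j
  field_simp
  linear_combination h1

end rank

section main
variable {F Γ : Type*} [Field F] [CharZero F] [Group Γ]

theorem symm_E {K : Type*} [Field K] [CharZero K] {E : Matrix n n ℚ} (hE : Eᵀ = E) :
    (E.map (algebraMap ℚ K))ᵀ = E.map (algebraMap ℚ K) := by
  change (Eᵀ).map (algebraMap ℚ K) = _
  rw [hE]

/-- the data attached to a representation with big monodromy -/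
theorem exists_data {E : Matrix n n ℚ} {ρ : Γ →* GL n F} (hsym : Eᵀ = E) (hE : IsUnit E.det)
    (hn : 2 < Fintype.card n) (h : BigMonodromy E ρ) : ∃ (Γ₁ : Subgroup Γ) (v : n → F) (γ₀ : Γ),
      Γ₁.FiniteIndex ∧ Dt (E.map (algebraMap ℚ F)) ρ Γ₁ v γ₀ ∧
      ∀ Γ' : Subgroup Γ, Γ'.FiniteIndex → JJ ρ Γ' ≤ JJ ρ Γ₁ := by
  obtain ⟨Γ₁, hnorm, hfin, hmin⟩ := exists_normal ρ
  have hd := MT100.H78.unit_E (K := F) hE
  have hs := symm_E (K := F) hsym
  obtain ⟨γ₀, hγ₀⟩ := h.trans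
  obtain ⟨hu, c, hc⟩ := h.simil γ₀
  obtain ⟨v, hv, hrefl⟩ := rank_refl hs hd hn hc hγ₀
  refine ⟨Γ₁, v, γ₀, hfin, ?_, hmin⟩
  refine ⟨hs, hd, hnorm, JJ_prime ρ hfin hmin, ?_, fun U hU => h.irred Γ₁ hfin U hU, hv, hrefl, hn⟩
  intro γ
  obtain ⟨hu, c, hc⟩ := h.simil γ
  refine ⟨c, ?_, hc⟩
  rintro rfl
  have hnon : Nonempty n := Fintype.card_pos_iff.1 (by omega)
  rw [zero_smul] at hc
  have h1 : IsUnit ((ρ γ : Matrix n n F)ᵀ * E.map (algebraMap ℚ F) * (ρ γ : Matrix n n F)).det := by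
    rw [det_mul, det_mul, det_transpose]
    exact (hu.mul hd).mul hu
  rw [hc, det_zero] at h1
  exact not_isUnit_zero h1

variable {K : Type*} [Field K] [CharZero K] [Algebra F K]

/-- **core**: the scalar multiples of the elements of the special orthogonal group -/
theorem core {E : Matrix n n ℚ} {ρ : Γ →* GL n F} (hsym : Eᵀ = E) (hE : IsUnit E.det)
    (hn : 2 < Fintype.card n) (h : BigMonodromy E ρ) {l : K} (hl : l ≠ 0) {Y : Matrix n n K}
    (hY : Yᵀ * E.map (algebraMap ℚ K) * Y = E.map (algebraMap ℚ K)) (hYd : Y.det = 1) :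
    l • Y ∈ monodromy ρ K := by
  obtain ⟨Γ₁, v, γ₀, hfin, hD, hmin⟩ := exists_data hsym hE hn h
  obtain ⟨G, hG⟩ : ∃ G, G = zcl (imK ρ K Γ₁) := ⟨_, rfl⟩
  have hone : (1 : Matrix n n K) ∈ G := by
    rw [hG]
    exact subset_zcl (imK_unit ρ Γ₁) (imK_one ρ Γ₁)
  have hmul : ∀ a ∈ G, ∀ b ∈ G, a * b ∈ G := by
    rw [hG]
    intro a ha b hb
    exact zcl_mul (imK_mul ρ Γ₁) ha hb
  have hcl : ∀ M : Matrix n n K, IsUnit M.det →
      (∀ p : MvPolynomial (n × n) K, (∀ g ∈ G, pev g p = 0) → pev M p = 0) → M ∈ G := by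
    intro M hM h1
    rw [hG] at h1 ⊢
    refine ⟨hM, fun p hp => h1 p ?_⟩
    intro g hg
    exact hg.2 p hp
  have hEE := MT100.H78.map_E (F := F) (K := K) E
  have hdK := MT100.H78.unit_E (K := K) hE
  have hsK := symm_E (K := K) hsym
  have hso : ∀ X : Matrix n n K, Xᵀ * E.map (algebraMap ℚ K) + E.map (algebraMap ℚ K) * X = 0 →
      X ∈ lieOf G := by
    intro X hX
    rw [hG]
    apply hD.so
    rw [hEE]
    exact hX
  have hSO : ∀ Z : Matrix n n K, Zᵀ * E.map (algebraMap ℚ K) * Z = E.map (algebraMap ℚ K) →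
      Z.det = 1 → Z ∈ G := fun Z hZ hZd => H64.so_mem hsK hdK hone hmul hcl hso hZ hZd
  -- the scalars
  obtain ⟨γ, c, hc, hc1⟩ := h.mult
  obtain ⟨m, hm0, -, hm⟩ := Subgroup.exists_pow_mem_of_index_ne_zero hfin.index_ne_zero γ
  have hnon : Nonempty n := Fintype.card_pos_iff.1 (by omega)
  have hpow : ∀ m : ℕ, (ρ (γ ^ m) : Matrix n n F)ᵀ * E.map (algebraMap ℚ F) *
      (ρ (γ ^ m) : Matrix n n F) = (c ^ m) • E.map (algebraMap ℚ F) := by
    intro m
    induction m with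
    | zero => rw [pow_zero, map_one, Units.val_one, transpose_one, one_mul, mul_one, pow_zero,
        one_smul]
    | succ m ih =>
      rw [pow_succ, map_mul, Units.val_mul, transpose_mul]
      have e1 : (ρ γ : Matrix n n F)ᵀ * (ρ (γ ^ m) : Matrix n n F)ᵀ * E.map (algebraMap ℚ F) *
          ((ρ (γ ^ m) : Matrix n n F) * (ρ γ : Matrix n n F)) = (ρ γ : Matrix n n F)ᵀ *
          ((ρ (γ ^ m) : Matrix n n F)ᵀ * E.map (algebraMap ℚ F) * (ρ (γ ^ m) : Matrix n n F)) *
          (ρ γ : Matrix n n F) := by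
        simp only [mul_assoc]
      rw [e1, ih, mul_smul_comm, smul_mul_assoc, hc, smul_smul, pow_succ]
  obtain ⟨M, hM⟩ : ∃ M, M = (ρ (γ ^ m) : Matrix n n F).map (algebraMap F K) := ⟨_, rfl⟩
  obtain ⟨d, hd⟩ : ∃ d, d = algebraMap F K (c ^ m) := ⟨_, rfl⟩
  have hMd : Mᵀ * E.map (algebraMap ℚ K) * M = d • E.map (algebraMap ℚ K) := by
    rw [hM, hd]
    exact MT100.H78.sim_map hEE (hpow m)
  have hMG : M ∈ G := by
    rw [hG]
    exact subset_zcl (imK_unit ρ Γ₁) ⟨γ ^ m, hm, hM⟩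
  have hMu : IsUnit M.det := imK_unit (K := K) ρ ⊤ _ ⟨γ ^ m, Subgroup.mem_top _, hM⟩
  have hd0 : d ≠ 0 := by
    rintro h0
    rw [h0, zero_smul] at hMd
    have h1 : IsUnit (Mᵀ * E.map (algebraMap ℚ K) * M).det := by
      rw [det_mul, det_mul, det_transpose]
      exact (hMu.mul hdK).mul hMu
    rw [hMd, det_zero] at h1
    exact not_isUnit_zero h1
  have hdinf : ∀ k : ℕ, 0 < k → d ^ k ≠ 1 := by
    intro k hk h1
    rw [hd, ← map_pow, ← pow_mul] at h1
    have h2 : c ^ (m * k) = 1 := by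
      apply (algebraMap F K).injective
      rw [h1, map_one]
    exact hc1 (m * k) (Nat.mul_pos hm0 hk) h2
  have hdet2 : M.det ^ 2 = d ^ Fintype.card n := by
    have h1 := congrArg det hMd
    rw [det_mul, det_mul, det_transpose, det_smul] at h1
    have h2 : (M.det ^ 2 - d ^ Fintype.card n) * (E.map (algebraMap ℚ K)).det = 0 := by
      rw [sub_mul, ← h1]
      ring
    exact sub_eq_zero.1 ((mul_eq_zero.1 h2).resolve_right hdK.ne_zero)
  have hMM : (M * M)ᵀ * E.map (algebraMap ℚ K) * (M * M) = (d ^ 2) • E.map (algebraMap ℚ K) := by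
    have e1 : (M * M)ᵀ * E.map (algebraMap ℚ K) * (M * M) =
        Mᵀ * (Mᵀ * E.map (algebraMap ℚ K) * M) * M := by
      rw [transpose_mul]
      simp only [mul_assoc]
    rw [e1, hMd, mul_smul_comm, smul_mul_assoc, hMd, smul_smul, sq]
  obtain ⟨Z, hZ⟩ : ∃ Z, Z = d⁻¹ • (M * M) := ⟨_, rfl⟩
  have hZo : Zᵀ * E.map (algebraMap ℚ K) * Z = E.map (algebraMap ℚ K) := by
    rw [hZ, transpose_smul, smul_mul_assoc, smul_mul_smul_comm, hMM, smul_smul]
    have : d⁻¹ * d⁻¹ * d ^ 2 = 1 := by field_simp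
    rw [this, one_smul]
  have hZd : Z.det = 1 := by
    rw [hZ, det_smul, det_mul, ← sq, hdet2, inv_pow, inv_mul_cancel₀ (pow_ne_zero _ hd0)]
  have hZu : IsUnit Z.det := by rw [hZd]; exact isUnit_one
  have hZi : Z⁻¹ ∈ G := by
    rw [hG]
    have h1 := hSO Z hZo hZd
    rw [hG] at h1
    exact zcl_inv (imK_one ρ Γ₁) (imK_mul ρ Γ₁) (imK_unit ρ Γ₁) h1
  have hdG : d • (1 : Matrix n n K) ∈ G := by
    have h1 : M * M = d • Z := by
      rw [hZ, smul_smul, mul_inv_cancel₀ hd0, one_smul]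
    have h2 : M * M * Z⁻¹ = d • (1 : Matrix n n K) := by
      rw [h1, smul_mul_assoc, mul_nonsing_inv Z hZu]
    rw [← h2]
    exact hmul _ (hmul _ hMG _ hMG) _ hZi
  have hscal := MT100.H78.scal hone hmul hcl hd0 hdinf hdG l hl
  have hfinal : l • Y ∈ G := by
    have h1 := hmul _ hscal _ (hSO Y hY hYd)
    rwa [smul_mul_assoc, one_mul] at h1
  intro Γ' hΓ'
  rw [mem_zclosure_iff]
  refine ⟨by rw [hG] at hfinal; exact hfinal.1, ?_⟩
  intro q hq
  have h1 : l • Y ∈ zclosure F K {X : Matrix n n F | ∃ γ ∈ Γ₁, X = (ρ γ : Matrix n n F)} := by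
    rw [mem_zclosure_iff, ← hG]
    exact hfinal
  have h2 : l • Y ∈ zclosure F K {X : Matrix n n F | ∃ γ ∈ Γ', X = (ρ γ : Matrix n n F)} := by
    refine ⟨h1.1, fun p hp => h1.2 p ?_⟩
    rintro _ ⟨δ, hδ, rfl⟩
    exact hmin Γ' hΓ' (fun γ hγ => hp _ ⟨γ, hγ, rfl⟩) δ hδ
  rw [mem_zclosure_iff] at h2
  exact h2.2 q hq

end main

end Pool.Agent.MT100B.H17
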