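import Pool.Agent.Helper17_MTB.Lad
import Pool.Agent.MT100B.Stmts

/-!
# MT100B, module LAD
-/

set_option autoImplicit false

universe u v

namespace Pool.Agent.MT100B.H17

open MvPolynomial Matrix Pool.Agent.Helper78_MT Pool.Agent.MT100

/-- LAD -/
theorem lad : LadStmt.{u, v} := by
  intro n _ _ E F Γ _ _ _ ρ hsym hE hn hodd h K _ _ _
  apply Set.Subset.antisymm (MT100.H78.sub_sim (MT100.H78.ne_zero_of hE hn) h.simil)
  rintro X ⟨hX, c, hc⟩
  obtain ⟨l, hl0, -, h1, h2⟩ := H64.sim_dec (MT100.H78.unit_E (K := K) hE) hodd hX hc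
  have h3 := core (K := K) hsym hE hn h hl0 h1 h2
  rwa [smul_smul, mul_inv_cancel₀ hl0, one_smul] at h3

end Pool.Agent.MT100B.H17
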