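import Pool.Agent.Helper17_MTB.Lad
import Pool.Agent.MT100GO.Stmts

/-!
# MT100GO, module LAD: orthogonal case, any dimension at least five
-/

set_option autoImplicit false

universe u v

namespace Pool.Agent.MT100GO.H17

open MvPolynomial Matrix Pool.Agent.Helper78_MT Pool.Agent.MT100 Pool.Agent.MT100B.H17

section sub
variable {n : Type*} [Fintype n] [DecidableEq n] {F K Γ : Type*} [Field F] [CharZero F] [Field K]
  [CharZero K] [Algebra F K] [Group Γ]

theorem entry {K : Type*} [Field K] (M e : Matrix n n K) (a b : n) :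
    (Mᵀ * e * M) a b = (M *ᵥ (Pi.single a 1)) ⬝ᵥ (e *ᵥ (M *ᵥ (Pi.single b 1))) := by
  have h2 : (Mᵀ * e * M) a b = (Pi.single a 1 : n → K) ⬝ᵥ ((Mᵀ * e * M) *ᵥ (Pi.single b 1)) := by
    rw [single_one_dotProduct, mulVec_single_one]
    rfl
  rw [h2, ← mulVec_mulVec, ← mulVec_mulVec, dotProduct_mulVec _ Mᵀ, vecMul_transpose]

/-- the determinant of the elements of the monodromy group -/
theorem det_eq {E : Matrix n n ℚ} (hE : IsUnit E.det) (hn : 2 < Fintype.card n) {ρ : Γ →* GL n F}
    (h : ∀ γ, (ρ γ : Matrix n n F) ∈ similitudes E F) {k : ℕ} (hk : Fintype.card n = 2 * k)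
    {M : Matrix n n K} (hM : M ∈ monodromy ρ K) {c : K}
    (hc : Mᵀ * E.map (algebraMap ℚ K) * M = c • E.map (algebraMap ℚ K)) : M.det = c ^ k := by
  classical
  obtain ⟨e, he⟩ : ∃ e, e = E.map (algebraMap ℚ F) := ⟨_, rfl⟩
  have hE0 := MT100.H78.ne_zero_of hE hn
  obtain ⟨a, b, hab⟩ : ∃ a b, E a b ≠ 0 := by
    by_contra hcon
    push Not at hcon
    apply hE0
    ext a b
    exact hcon a b
  have hab' : e a b ≠ 0 := by
    rw [he, Matrix.map_apply]
    exact (map_ne_zero _).2 hab
  have hdF := MT100.H78.unit_E (K := F) hE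
  rw [← he] at hdF
  -- the multiplier
  obtain ⟨μ, hμ⟩ : ∃ μ : Γ → F, μ = fun γ =>
      ((ρ γ : Matrix n n F)ᵀ * e * (ρ γ : Matrix n n F)) a b / e a b := ⟨_, rfl⟩
  have hsim : ∀ γ, (ρ γ : Matrix n n F)ᵀ * e * (ρ γ : Matrix n n F) = μ γ • e := by
    intro γ
    obtain ⟨-, c', hc'⟩ := h γ
    rw [← he] at hc'
    have h1 : μ γ = c' := by
      rw [hμ]
      simp only
      rw [hc', Matrix.smul_apply, smul_eq_mul, mul_div_cancel_right₀ _ hab']
    rw [h1, hc']
  have hμmul : ∀ γ δ, μ (γ * δ) = μ γ * μ δ := by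
    intro γ δ
    have h1 : (ρ (γ * δ) : Matrix n n F)ᵀ * e * (ρ (γ * δ) : Matrix n n F) =
        (μ γ * μ δ) • e := by
      rw [map_mul, Units.val_mul, transpose_mul]
      have e1 : (ρ δ : Matrix n n F)ᵀ * (ρ γ : Matrix n n F)ᵀ * e *
          ((ρ γ : Matrix n n F) * (ρ δ : Matrix n n F)) =
          (ρ δ : Matrix n n F)ᵀ * ((ρ γ : Matrix n n F)ᵀ * e * (ρ γ : Matrix n n F)) *
            (ρ δ : Matrix n n F) := by
        simp only [mul_assoc]
      rw [e1, hsim, mul_smul_comm, smul_mul_assoc, hsim, smul_smul]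
    have h2 := hsim (γ * δ)
    rw [h1] at h2
    have h3 := congrFun (congrFun h2 a) b
    rw [Matrix.smul_apply, Matrix.smul_apply, smul_eq_mul, smul_eq_mul] at h3
    exact (mul_right_cancel₀ hab' h3).symm
  have hμone : μ 1 = 1 := by
    rw [hμ]
    simp only
    rw [map_one, Units.val_one, transpose_one, one_mul, mul_one, div_self hab']
  have hsq : ∀ γ, (ρ γ : Matrix n n F).det ^ 2 = μ γ ^ (2 * k) := by
    intro γ
    have h1 := congrArg det (hsim γ)
    rw [det_mul, det_mul, det_transpose, det_smul, hk] at h1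
    have h2 : ((ρ γ : Matrix n n F).det ^ 2 - μ γ ^ (2 * k)) * e.det = 0 := by
      rw [sub_mul, ← h1]
      ring
    exact sub_eq_zero.1 ((mul_eq_zero.1 h2).resolve_right hdF.ne_zero)
  have hμ0 : ∀ γ, μ γ ≠ 0 := by
    intro γ h0
    have h1 := hμmul γ γ⁻¹
    rw [mul_inv_cancel, hμone, h0, zero_mul] at h1
    exact one_ne_zero h1
  let χ : Γ →* F :=
    { toFun := fun γ => (ρ γ : Matrix n n F).det * (μ γ ^ k)⁻¹
      map_one' := by rw [map_one, Units.val_one, det_one, hμone, one_pow, inv_one, mul_one]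
      map_mul' := by
        intro γ δ
        rw [map_mul, Units.val_mul, det_mul, hμmul, mul_pow, mul_inv]
        ring }
  have hχ : ∀ γ, χ γ = (ρ γ : Matrix n n F).det * (μ γ ^ k)⁻¹ := fun _ => rfl
  let ψ : Γ →* Fˣ := χ.toHomUnits
  have hψ : ∀ γ, ((ψ γ : Fˣ) : F) = χ γ := fun γ => MonoidHom.coe_toHomUnits χ γ
  have hfin : Finite ψ.range := by
    have h1 : (Set.range ψ).Finite := by
      apply (Set.toFinite ({1, -1} : Set Fˣ)).subset
      rintro _ ⟨γ, rfl⟩
      have h2 : (χ γ) ^ 2 = 1 := by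
        rw [hχ, mul_pow, inv_pow, hsq, ← pow_mul, mul_comm k 2]
        exact mul_inv_cancel₀ (pow_ne_zero _ (hμ0 γ))
      have h3 : (χ γ - 1) * (χ γ + 1) = 0 := by
        linear_combination h2
      rcases mul_eq_zero.1 h3 with h4 | h4
      · left
        apply Units.ext
        rw [hψ, Units.val_one]
        exact sub_eq_zero.1 h4
      · right
        apply Units.ext
        rw [hψ, Units.val_neg, Units.val_one]
        exact eq_neg_of_add_eq_zero_left h4
    exact h1
  have hker : ψ.ker.FiniteIndex := inferInstance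
  have h1 := hM ψ.ker hker
  -- the polynomial
  obtain ⟨dp, hdp⟩ : ∃ dp : MvPolynomial (n × n) F,
      dp = (Matrix.of (fun i j => (MvPolynomial.X (i, j) : MvPolynomial (n × n) F))).det :=
    ⟨_, rfl⟩
  have hdetK : ∀ (M : Matrix n n K), pev M dp = M.det := by
    intro M
    rw [hdp, AlgHom.map_det]
    congr 1
    ext i j
    simp [pev]
  have hdetF : ∀ (M : Matrix n n F), pev M dp = M.det := by
    intro M
    rw [hdp, AlgHom.map_det]
    congr 1
    ext i j
    simp [pev]
  have h2 := h1.2 (dp * C (e a b) ^ k - bp e (Pi.single a 1) (Pi.single b 1) ^ k) (by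
    rintro _ ⟨γ, hγ, rfl⟩
    have h3 : χ γ = 1 := by
      rw [← hψ]
      have : ψ γ = 1 := hγ
      rw [this, Units.val_one]
    rw [hχ, mul_inv_eq_one₀ (pow_ne_zero _ (hμ0 γ))] at h3
    rw [map_sub, map_mul, map_pow, map_pow, pev_C, hdetF, pev_bp', ← entry, hsim,
      Matrix.smul_apply, smul_eq_mul, h3, mul_pow]
    exact sub_self _)
  have heE : e.map (algebraMap F K) = E.map (algebraMap ℚ K) := by
    rw [he]
    exact MT100.H78.map_E E
  rw [map_sub, map_mul, map_pow, map_pow, pev_C, hdetK, pev_bp, single_map, single_map, ← entry,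
    heE, hc, Matrix.smul_apply, smul_eq_mul, mul_pow, sub_eq_zero] at h2
  have h3 : algebraMap F K (e a b) = E.map (algebraMap ℚ K) a b := by
    rw [← heE, Matrix.map_apply]
  rw [h3] at h2
  have h4 : E.map (algebraMap ℚ K) a b ≠ 0 := by
    rw [← h3]
    exact (map_ne_zero _).2 hab'
  exact mul_right_cancel₀ (pow_ne_zero k h4) h2

end sub

/-- LAD -/
theorem lad : LadStmt.{u, v} := by
  intro n _ _ E F Γ _ _ _ ρ hsym hE hn5 h K _ _ _
  have hn : 2 < Fintype.card n := by omega
  apply Set.Subset.antisymm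
  · intro M hM
    obtain ⟨hMu, c, hc⟩ := MT100.H78.sub_sim (MT100.H78.ne_zero_of hE hn) h.simil hM
    refine ⟨hMu, c, hc, fun heven => ?_⟩
    obtain ⟨k, hk⟩ := heven
    have hk' : Fintype.card n = 2 * k := by omega
    have h1 := det_eq hE hn h.simil hk' hM hc
    rw [h1]
    congr 1
    omega
  · rintro X ⟨hX, c, hc, hdet⟩
    rcases Nat.even_or_odd (Fintype.card n) with heven | hodd
    · have hdet' := hdet heven
      obtain ⟨k, hk⟩ := heven
      have hk' : Fintype.card n / 2 = k := by omega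
      rw [hk'] at hdet'
      intro Γ' hΓ'
      refine ⟨hX, ?_⟩
      intro p hp
      obtain ⟨l, hl⟩ := IsAlgClosed.exists_pow_nat_eq (algebraMap K (AlgebraicClosure K) c) (n := 2)
        (by norm_num)
      obtain ⟨X', hX'⟩ : ∃ X', X' = X.map (algebraMap K (AlgebraicClosure K)) := ⟨_, rfl⟩
      have hEK : (E.map (algebraMap ℚ K)).map (algebraMap K (AlgebraicClosure K)) =
          E.map (algebraMap ℚ (AlgebraicClosure K)) := MT100.H78.map_E E
      have hc' : X'ᵀ * E.map (algebraMap ℚ (AlgebraicClosure K)) * X' =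
          (l ^ 2) • E.map (algebraMap ℚ (AlgebraicClosure K)) := by
        rw [hX', hl]
        exact MT100.H78.sim_map hEK hc
      have hdX' : X'.det = l ^ (2 * k) := by
        have h1 : X'.det = algebraMap K (AlgebraicClosure K) X.det := by
          rw [hX', RingHom.map_det, RingHom.mapMatrix_apply]
        rw [h1, hdet', map_pow, ← hl, ← pow_mul]
      have hl0 : l ≠ 0 := by
        rintro rfl
        have h1 : X'.det = algebraMap K (AlgebraicClosure K) X.det := by
          rw [hX', RingHom.map_det, RingHom.mapMatrix_apply]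
        have h2 : X'.det ≠ 0 := by
          rw [h1]
          exact (map_ne_zero _).2 hX.ne_zero
        apply h2
        rw [hdX', zero_pow (by omega)]
      have h1 := core (K := AlgebraicClosure K) hsym hE hn h hl0 (Y := l⁻¹ • X') (by
          rw [transpose_smul, smul_mul_assoc, smul_mul_smul_comm, hc', smul_smul]
          have : l⁻¹ * l⁻¹ * l ^ 2 = 1 := by field_simp
          rw [this, one_smul]) (by
          rw [det_smul, hdX', hk, ← two_mul, inv_pow, inv_mul_cancel₀ (pow_ne_zero _ hl0)])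
      rw [smul_smul, mul_inv_cancel₀ hl0, one_smul] at h1
      have h2 := (h1 Γ' hΓ').2 p hp
      rw [hX', MT100.H78.pev_up, map_eq_zero] at h2
      exact h2
    · obtain ⟨l, hl0, -, h1, h2⟩ := MT100B.H64.sim_dec (MT100.H78.unit_E (K := K) hE) hodd hX hc
      have h3 := core (K := K) hsym hE hn h hl0 h1 h2
      rwa [smul_smul, mul_inv_cancel₀ hl0, one_smul] at h3

end Pool.Agent.MT100GO.H17
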