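import Pool.Agent.Helper78_MT.Assembly

/-!
# MT100B, module LAD: the ideal of the smallest closure is prime
-/

set_option autoImplicit false
set_option linter.unusedSectionVars false

namespace Pool.Agent.MT100B.H17

open MvPolynomial Matrix Pool.Agent.Helper78_MT

variable {n : Type*} [Fintype n] [DecidableEq n]

section sub
variable {F : Type*} [Field F]

theorem lsub_mul (A B : Matrix n n F) : lsub (A * B) = (lsub B).comp (lsub A) := by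
  apply MvPolynomial.algHom_ext
  intro ij
  rw [AlgHom.comp_apply]
  simp only [lsub, aeval_X, map_sum, map_mul, Matrix.mul_apply, aeval_C, algebraMap_eq,
    Finset.sum_mul, Finset.mul_sum]
  rw [Finset.sum_comm]
  apply Finset.sum_congr rfl
  intro k _
  apply Finset.sum_congr rfl
  intro l _
  ring

theorem lsub_one : lsub (1 : Matrix n n F) = AlgHom.id F _ := by
  apply MvPolynomial.algHom_ext
  intro ij
  simp [lsub, Matrix.one_apply]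

end sub

section pri
variable {F Γ : Type*} [Field F] [Group Γ]

/-- the polynomials which vanish on the image of a subgroup -/
def JJ (ρ : Γ →* GL n F) (Γ' : Subgroup Γ) : Ideal (MvPolynomial (n × n) F) where
  carrier := {p | ∀ γ ∈ Γ', pev (ρ γ : Matrix n n F) p = 0}
  add_mem' := by
    intro a b ha hb γ hγ
    rw [map_add, ha γ hγ, hb γ hγ, add_zero]
  zero_mem' := by intro γ _; rw [map_zero]
  smul_mem' := by
    intro c a ha γ hγ
    rw [smul_eq_mul, map_mul, ha γ hγ, mul_zero]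

theorem mem_JJ {ρ : Γ →* GL n F} {Γ' : Subgroup Γ} {p : MvPolynomial (n × n) F} :
    p ∈ JJ ρ Γ' ↔ ∀ γ ∈ Γ', pev (ρ γ : Matrix n n F) p = 0 := Iff.rfl

theorem JJ_anti (ρ : Γ →* GL n F) {Γ' Γ'' : Subgroup Γ} (h : Γ' ≤ Γ'') : JJ ρ Γ'' ≤ JJ ρ Γ' :=
  fun _ hp γ hγ => hp γ (h hγ)

/-- there is a normal subgroup of finite index with the smallest closure -/
theorem exists_normal (ρ : Γ →* GL n F) : ∃ Γ₁ : Subgroup Γ, Γ₁.Normal ∧ Γ₁.FiniteIndex ∧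
    ∀ Γ' : Subgroup Γ, Γ'.FiniteIndex → JJ ρ Γ' ≤ JJ ρ Γ₁ := by
  let A : Set (Ideal (MvPolynomial (n × n) F)) :=
    {J | ∃ Γ' : Subgroup Γ, Γ'.FiniteIndex ∧ J = JJ ρ Γ'}
  have hA : A.Nonempty := ⟨JJ ρ ⊤, ⊤, inferInstance, rfl⟩
  obtain ⟨J, ⟨Γ₁, hΓ₁, rfl⟩, hmax⟩ :=
    (set_has_maximal_iff_noetherian (R := MvPolynomial (n × n) F)
      (M := MvPolynomial (n × n) F)).mpr inferInstance A hA
  have hle : ∀ Γ' : Subgroup Γ, Γ'.FiniteIndex → JJ ρ Γ' ≤ JJ ρ Γ₁ := by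
    intro Γ' hΓ'
    have h1 : (Γ₁ ⊓ Γ').FiniteIndex := inferInstance
    have h4 : JJ ρ Γ₁ = JJ ρ (Γ₁ ⊓ Γ') := by
      by_contra hne
      exact hmax _ ⟨_, h1, rfl⟩ (lt_of_le_of_ne (JJ_anti ρ inf_le_left) hne)
    rw [h4]
    exact JJ_anti ρ inf_le_right
  refine ⟨Γ₁.normalCore, Γ₁.normalCore_normal, inferInstance, ?_⟩
  intro Γ' hΓ'
  exact (hle Γ' hΓ').trans (JJ_anti ρ Γ₁.normalCore_le)

/-- ideals, as a type with an action -/
structure Idl (n F : Type*) [Field F] where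
  /-- the ideal -/
  I : Ideal (MvPolynomial (n × n) F)

theorem comap_lsub_one (I : Ideal (MvPolynomial (n × n) F)) :
    I.comap (lsub (1 : Matrix n n F)) = I := by
  ext p
  rw [Ideal.mem_comap, lsub_one]
  exact Iff.rfl

theorem comap_lsub_mul (A B : Matrix n n F) (I : Ideal (MvPolynomial (n × n) F)) :
    I.comap (lsub (A * B)) = (I.comap (lsub B)).comap (lsub A) := by
  ext p
  rw [Ideal.mem_comap, Ideal.mem_comap, Ideal.mem_comap, lsub_mul, AlgHom.comp_apply]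

/-- the action by left translations -/
@[reducible]
noncomputable def actI (ρ : Γ →* GL n F) (Γ₁ : Subgroup Γ) : MulAction Γ₁ (Idl n F) where
  smul := fun γ P => ⟨P.I.comap (lsub (ρ (γ : Γ) : Matrix n n F))⟩
  one_smul := by
    rintro ⟨I⟩
    change (⟨I.comap (lsub (ρ ((1 : Γ₁) : Γ) : Matrix n n F))⟩ : Idl n F) = ⟨I⟩
    rw [Subgroup.coe_one, map_one, Units.val_one, comap_lsub_one]
  mul_smul := by
    rintro γ δ ⟨I⟩
    change (⟨I.comap (lsub (ρ ((γ * δ : Γ₁) : Γ) : Matrix n n F))⟩ : Idl n F) =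
      ⟨(I.comap (lsub (ρ (δ : Γ) : Matrix n n F))).comap (lsub (ρ (γ : Γ) : Matrix n n F))⟩
    rw [Subgroup.coe_mul, map_mul, Units.val_mul, comap_lsub_mul]

theorem JJ_prime (ρ : Γ →* GL n F) {Γ₁ : Subgroup Γ} (hf : Γ₁.FiniteIndex)
    (hmin : ∀ Γ' : Subgroup Γ, Γ'.FiniteIndex → JJ ρ Γ' ≤ JJ ρ Γ₁) : (JJ ρ Γ₁).IsPrime := by
  classical
  let act : MulAction Γ₁ (Idl n F) := actI ρ Γ₁
  have hsm : ∀ (γ : Γ₁) (I : Idl n F) (p : MvPolynomial (n × n) F),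
      p ∈ (γ • I).I ↔ lsub (ρ (γ : Γ) : Matrix n n F) p ∈ I.I := fun _ _ _ => Iff.rfl
  have hmono : ∀ (γ : Γ₁) (I I' : Idl n F), I.I ≤ I'.I → (γ • I).I ≤ (γ • I').I := by
    intro γ I I' h p hp
    rw [hsm] at hp ⊢
    exact h hp
  have hJs : ∀ γ : Γ₁, (γ • (⟨JJ ρ Γ₁⟩ : Idl n F)).I = JJ ρ Γ₁ := by
    intro γ
    ext p
    rw [hsm]
    constructor
    · intro h δ hδ
      have h1 := h ((γ : Γ)⁻¹ * δ) (Γ₁.mul_mem (Γ₁.inv_mem γ.2) hδ)
      rw [pev_lsub, ← Units.val_mul, ← map_mul, mul_inv_cancel_left] at h1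
      exact h1
    · intro h δ hδ
      rw [pev_lsub, ← Units.val_mul, ← map_mul]
      exact h _ (Γ₁.mul_mem γ.2 hδ)
  have hprime : ∀ (γ : Γ₁) (I : Idl n F), I.I.IsPrime → (γ • I).I.IsPrime := by
    intro γ I hI
    exact Ideal.comap_isPrime (lsub (ρ (γ : Γ) : Matrix n n F)) I.I
  -- the evaluation at one
  obtain ⟨m, hmp, hm⟩ : ∃ m : Ideal (MvPolynomial (n × n) F), m.IsPrime ∧
      ∀ p, p ∈ m ↔ pev (F := F) (1 : Matrix n n F) p = 0 :=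
    ⟨RingHom.ker (pev (F := F) (1 : Matrix n n F)), RingHom.ker_isPrime _, fun p => RingHom.mem_ker⟩
  have hJm : JJ ρ Γ₁ ≤ m := by
    intro p hp
    have h1 := hp 1 Γ₁.one_mem
    rw [map_one, Units.val_one] at h1
    exact (hm p).2 h1
  obtain ⟨P, hP, hPm⟩ := Ideal.exists_minimalPrimes_le hJm
  have hmin' : ∀ γ : Γ₁, (γ • (⟨P⟩ : Idl n F)).I ∈ (JJ ρ Γ₁).minimalPrimes := by
    intro γ
    refine ⟨⟨hprime γ _ hP.1.1, ?_⟩, ?_⟩
    · rw [← hJs γ]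
      exact hmono γ _ _ hP.1.2
    · rintro Q ⟨hQ1, hQ2⟩ hQ3
      have h1 : (γ⁻¹ • (⟨Q⟩ : Idl n F)).I ≤ P := by
        have := hmono γ⁻¹ ⟨Q⟩ _ hQ3
        rwa [inv_smul_smul] at this
      have h2 : JJ ρ Γ₁ ≤ (γ⁻¹ • (⟨Q⟩ : Idl n F)).I := by
        have := hmono γ⁻¹ ⟨JJ ρ Γ₁⟩ ⟨Q⟩ hQ2
        rwa [hJs γ⁻¹] at this
      have h3 := hP.2 ⟨hprime γ⁻¹ _ hQ1, h2⟩ h1
      have h4 := hmono γ ⟨P⟩ _ h3
      rwa [smul_inv_smul] at h4
  have hfin : (MulAction.orbit Γ₁ (⟨P⟩ : Idl n F)).Finite := by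
    have hinj : Function.Injective (Idl.I : Idl n F → _) := by
      rintro ⟨a⟩ ⟨b⟩ h
      change a = b at h
      rw [h]
    apply Set.Finite.of_finite_image _ hinj.injOn
    apply (Ideal.finite_minimalPrimes_of_isNoetherianRing _ (JJ ρ Γ₁)).subset
    rintro _ ⟨_, ⟨γ, rfl⟩, rfl⟩
    exact hmin' γ
  have hst : (MulAction.stabilizer Γ₁ (⟨P⟩ : Idl n F)).FiniteIndex := by
    have : Finite (MulAction.orbit Γ₁ (⟨P⟩ : Idl n F)) := hfin
    have : Finite (Γ₁ ⧸ MulAction.stabilizer Γ₁ (⟨P⟩ : Idl n F)) :=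
      Finite.of_equiv _ (MulAction.orbitEquivQuotientStabilizer Γ₁ (⟨P⟩ : Idl n F))
    exact Subgroup.finiteIndex_of_finite_quotient
  obtain ⟨Γ₂, hΓ₂⟩ : ∃ Γ₂ : Subgroup Γ,
      Γ₂ = (MulAction.stabilizer Γ₁ (⟨P⟩ : Idl n F)).map Γ₁.subtype := ⟨_, rfl⟩
  have hf2 : Γ₂.FiniteIndex := by
    refine ⟨?_⟩
    rw [hΓ₂, Subgroup.index_map_subtype]
    exact mul_ne_zero hst.index_ne_zero hf.index_ne_zero
  have h1 : P ≤ JJ ρ Γ₂ := by
    intro p hp δ hδ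
    rw [hΓ₂] at hδ
    obtain ⟨γ, hγ, rfl⟩ := hδ
    have h2 : p ∈ (γ • (⟨P⟩ : Idl n F)).I := by
      have : γ • (⟨P⟩ : Idl n F) = ⟨P⟩ := hγ
      rw [this]
      exact hp
    rw [hsm] at h2
    have h3 := (hm _).1 (hPm h2)
    rw [pev_lsub, mul_one] at h3
    exact h3
  have h2 : P = JJ ρ Γ₁ := le_antisymm (h1.trans (hmin Γ₂ hf2)) hP.1.2
  rw [← h2]
  exact hP.1.1

end pri

end Pool.Agent.MT100B.H17
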