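import Pool.Agent.Helper17_MTB.Tor

/-!
# MT100B, module LAD: products of two reflections
-/

set_option autoImplicit false
set_option linter.unusedSectionVars false

namespace Pool.Agent.MT100B.H17

open MvPolynomial Matrix Pool.Agent.Helper78_MT

variable {n : Type*} [Fintype n] [DecidableEq n]

section refl
variable {K : Type*} [Field K]

/-- the reflection -/
def rf (e : Matrix n n K) (u : n → K) : Matrix n n K :=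
  1 - (2 / (u ⬝ᵥ (e *ᵥ u))) • vecMulVec u (e *ᵥ u)

/-- the infinitesimal rotation -/
def wd (e : Matrix n n K) (u w : n → K) : Matrix n n K :=
  vecMulVec u (e *ᵥ w) - vecMulVec w (e *ᵥ u)

theorem psi_symm {e : Matrix n n K} (he : eᵀ = e) (u w : n → K) :
    u ⬝ᵥ (e *ᵥ w) = w ⬝ᵥ (e *ᵥ u) := by
  rw [dotProduct_mulVec, ← mulVec_transpose, he, dotProduct_comm]

theorem vv (e : Matrix n n K) (x y z t : n → K) :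
    vecMulVec x (e *ᵥ y) * vecMulVec z (e *ᵥ t) =
      (z ⬝ᵥ (e *ᵥ y)) • vecMulVec x (e *ᵥ t) := by
  rw [vecMulVec_mul_vecMulVec, vecMulVec_smul, dotProduct_comm]

theorem wd_sq {e : Matrix n n K} (he : eᵀ = e) (u w : n → K) :
    wd e u w * wd e u w = (u ⬝ᵥ (e *ᵥ w)) • vecMulVec u (e *ᵥ w) -
      (w ⬝ᵥ (e *ᵥ w)) • vecMulVec u (e *ᵥ u) - (u ⬝ᵥ (e *ᵥ u)) • vecMulVec w (e *ᵥ w) +
      (u ⬝ᵥ (e *ᵥ w)) • vecMulVec w (e *ᵥ u) := by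
  unfold wd
  rw [sub_mul, mul_sub, mul_sub, vv, vv, vv, vv, psi_symm he w u]
  abel

theorem wd_cube {e : Matrix n n K} (he : eᵀ = e) (u w : n → K) :
    wd e u w * wd e u w * wd e u w = ((u ⬝ᵥ (e *ᵥ w)) ^ 2 -
      (u ⬝ᵥ (e *ᵥ u)) * (w ⬝ᵥ (e *ᵥ w))) • wd e u w := by
  rw [wd_sq he]
  unfold wd
  rw [add_mul, sub_mul, sub_mul]
  simp only [smul_mul_assoc, mul_sub, vv]
  rw [psi_symm he w u]
  obtain ⟨a, ha⟩ : ∃ a, a = u ⬝ᵥ (e *ᵥ u) := ⟨_, rfl⟩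
  obtain ⟨b, hb⟩ : ∃ b, b = u ⬝ᵥ (e *ᵥ w) := ⟨_, rfl⟩
  obtain ⟨c, hc⟩ : ∃ c, c = w ⬝ᵥ (e *ᵥ w) := ⟨_, rfl⟩
  rw [← ha, ← hb, ← hc]
  module

theorem rf_mul_rf {e : Matrix n n K} (he : eᵀ = e) {u w : n → K} (hu : u ⬝ᵥ (e *ᵥ u) ≠ 0)
    (hw : w ⬝ᵥ (e *ᵥ w) ≠ 0) :
    rf e u * rf e w = 1 + (2 / ((u ⬝ᵥ (e *ᵥ u)) * (w ⬝ᵥ (e *ᵥ w)))) • (wd e u w * wd e u w) +
      (2 * (u ⬝ᵥ (e *ᵥ w)) / ((u ⬝ᵥ (e *ᵥ u)) * (w ⬝ᵥ (e *ᵥ w)))) • wd e u w := by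
  rw [wd_sq he]
  unfold rf wd
  rw [sub_mul, mul_sub, mul_sub, one_mul, mul_one, one_mul, smul_mul_smul_comm, vv,
    psi_symm he w u]
  obtain ⟨a, ha⟩ : ∃ a, a = u ⬝ᵥ (e *ᵥ u) := ⟨_, rfl⟩
  obtain ⟨b, hb⟩ : ∃ b, b = u ⬝ᵥ (e *ᵥ w) := ⟨_, rfl⟩
  obtain ⟨c, hc⟩ : ∃ c, c = w ⬝ᵥ (e *ᵥ w) := ⟨_, rfl⟩
  rw [← ha] at hu
  rw [← hc] at hw
  rw [← ha, ← hb, ← hc]
  match_scalars <;> field_simp <;> ring

theorem smul_cube {X : Matrix n n K} {d : K} (hd : d ≠ 0) (hX : X * X * X = d ^ 2 • X) :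
    (d⁻¹ • X) * (d⁻¹ • X) * (d⁻¹ • X) = d⁻¹ • X := by
  rw [smul_mul_smul_comm, smul_mul_smul_comm, hX, smul_smul]
  congr 1
  field_simp

/-- a product of two reflections in terms of the one parameter group -/
theorem rf_mul_rf_gam [CharZero K] {e : Matrix n n K} (he : eᵀ = e) {u w : n → K}
    (hu : u ⬝ᵥ (e *ᵥ u) ≠ 0) (hw : w ⬝ᵥ (e *ᵥ w) ≠ 0) {d : K} (hd : d ≠ 0)
    (hd2 : d ^ 2 = (u ⬝ᵥ (e *ᵥ w)) ^ 2 - (u ⬝ᵥ (e *ᵥ u)) * (w ⬝ᵥ (e *ᵥ w))) :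
    ∃ s : K, s ≠ 0 ∧
      s + s⁻¹ = 4 * ((u ⬝ᵥ (e *ᵥ w)) ^ 2 / ((u ⬝ᵥ (e *ᵥ u)) * (w ⬝ᵥ (e *ᵥ w)))) - 2 ∧
      rf e u * rf e w = gam (d⁻¹ • wd e u w) s := by
  obtain ⟨a, ha⟩ : ∃ a, a = u ⬝ᵥ (e *ᵥ u) := ⟨_, rfl⟩
  obtain ⟨b, hb⟩ : ∃ b, b = u ⬝ᵥ (e *ᵥ w) := ⟨_, rfl⟩
  obtain ⟨c, hc⟩ : ∃ c, c = w ⬝ᵥ (e *ᵥ w) := ⟨_, rfl⟩
  rw [rf_mul_rf he hu hw]
  rw [← ha] at hu
  rw [← hc] at hw
  rw [← ha, ← hb, ← hc] at hd2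
  rw [← ha, ← hb, ← hc]
  obtain ⟨s, hs⟩ : ∃ s, s = -1 + 2 * b ^ 2 / (a * c) + 2 * b * d / (a * c) := ⟨_, rfl⟩
  obtain ⟨t, ht⟩ : ∃ t, t = -1 + 2 * b ^ 2 / (a * c) - 2 * b * d / (a * c) := ⟨_, rfl⟩
  have hst : s * t = 1 := by
    rw [hs, ht]
    field_simp
    linear_combination (-4 * b ^ 2) * hd2
  have hs0 : s ≠ 0 := left_ne_zero_of_mul_eq_one hst
  have hti : s⁻¹ = t := inv_eq_of_mul_eq_one_right hst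
  refine ⟨s, hs0, ?_, ?_⟩
  · rw [hti, hs, ht]
    ring
  · unfold gam
    rw [hti, smul_mul_smul_comm]
    obtain ⟨X, hX⟩ : ∃ X, X = wd e u w := ⟨_, rfl⟩
    rw [← hX]
    obtain ⟨Y, hY⟩ : ∃ Y, Y = X * X := ⟨_, rfl⟩
    rw [← hY]
    have e1 : 2 / (a * c) = (s + t - 2) / 2 * (d⁻¹ * d⁻¹) := by
      have : (s + t - 2) = 4 * d ^ 2 / (a * c) := by
        rw [hs, ht, hd2]
        field_simp
        ring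
      rw [this]
      field_simp
      norm_num
    have e2 : 2 * b / (a * c) = (s - t) / 2 * d⁻¹ := by
      rw [hs, ht]
      field_simp
      ring
    rw [e1, e2]
    module

end refl

end Pool.Agent.MT100B.H17
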