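import Pool.Agent.Helper17_MTB.Core

/-!
# MT100B, module LAD: the infinitesimal rotations are in the Lie algebra
-/

set_option autoImplicit false
set_option linter.unusedSectionVars false

universe u v w

namespace Pool.Agent.MT100B.H17

open MvPolynomial Matrix Pool.Agent.Helper78_MT Pool.Agent.Helper3_MT

variable {n : Type*} [Fintype n] [DecidableEq n]

section drl
variable {K : Type*} [Field K]

/-- the derivation is linear in the matrix -/
theorem pev_dr_sum (g X : Matrix n n K) (p : MvPolynomial (n × n) K) :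
    pev g (dr X p) = ∑ k, ∑ l, X k l * pev g (dr (Matrix.single k l (1 : K)) p) := by
  let L : Matrix n n K →ₗ[K] K :=
    { toFun := fun A => pev g (dr A p)
      map_add' := by
        intro A B
        rw [dr_add, map_add]
      map_smul' := by
        intro c A
        rw [dr_smul, map_smul]
        rfl }
  have h1 : ∀ A, L A = pev g (dr A p) := fun _ => rfl
  have h2 : X = ∑ k, ∑ l, X k l • Matrix.single k l (1 : K) := by
    conv_lhs => rw [matrix_eq_sum_single X]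
    apply Finset.sum_congr rfl
    intro k _
    apply Finset.sum_congr rfl
    intro l _
    rw [smul_single, smul_eq_mul, mul_one]
  rw [← h1]
  conv_lhs => rw [h2]
  rw [map_sum]
  apply Finset.sum_congr rfl
  intro k _
  rw [map_sum]
  apply Finset.sum_congr rfl
  intro l _
  rw [map_smul, h1, smul_eq_mul]

end drl

section poly
variable {F K : Type*} [Field F] [Field K] [Algebra F K]

/-- the polynomial `(M x) ⬝ e (M y)` -/
noncomputable def bp (e : Matrix n n F) (x y : n → F) : MvPolynomial (n × n) F :=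
  ∑ i, ∑ j, C (e i j) * (lp (Pi.single i 1) x * lp (Pi.single j 1) y)

theorem pev_bp (M : Matrix n n K) (e : Matrix n n F) (x y : n → F) :
    pev M (bp e x y) = (M *ᵥ (fun i => algebraMap F K (x i))) ⬝ᵥ
      (e.map (algebraMap F K) *ᵥ (M *ᵥ (fun i => algebraMap F K (y i)))) := by
  unfold bp
  simp only [map_sum, map_mul, pev_C, pev_lp, single_map, single_one_dotProduct]
  rw [dotProduct]
  apply Finset.sum_congr rfl
  intro i _
  obtain ⟨z, hz⟩ : ∃ z, z = M *ᵥ (fun i => algebraMap F K (y i)) := ⟨_, rfl⟩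
  rw [← hz]
  change _ = (M *ᵥ fun i => algebraMap F K (x i)) i * ∑ j, algebraMap F K (e i j) * z j
  rw [Finset.mul_sum]
  apply Finset.sum_congr rfl
  intro j _
  ring

theorem pev_bp' (M : Matrix n n F) (e : Matrix n n F) (x y : n → F) :
    pev M (bp e x y) = (M *ᵥ x) ⬝ᵥ (e *ᵥ (M *ᵥ y)) := by
  rw [pev_bp]
  rfl

/-- the entries of `wd e (M v) v` -/
noncomputable def wp (e : Matrix n n F) (v : n → F) (k l : n) : MvPolynomial (n × n) F :=
  lp (Pi.single k 1) v * C ((e *ᵥ v) l) - C (v k) * lp (fun j => e l j) v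

theorem pev_wp (M : Matrix n n K) (e : Matrix n n F) (v : n → F) (k l : n) :
    pev M (wp e v k l) = wd (e.map (algebraMap F K)) (M *ᵥ (fun i => algebraMap F K (v i)))
      (fun i => algebraMap F K (v i)) k l := by
  unfold wp wd
  rw [map_sub, map_mul, map_mul, pev_C, pev_C, pev_lp, pev_lp, single_map,
    single_one_dotProduct, Matrix.sub_apply, vecMulVec_apply, vecMulVec_apply, map_vec]
  rfl

theorem pev_wp' (M : Matrix n n F) (e : Matrix n n F) (v : n → F) (k l : n) :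
    pev M (wp e v k l) = wd e (M *ᵥ v) v k l := by
  rw [pev_wp]
  rfl

end poly

section main
variable {F Γ : Type*} [Field F] [CharZero F] [Group Γ]
variable {e : Matrix n n F} {ρ : Γ →* GL n F} {Γ₁ : Subgroup Γ} {v : n → F} {γ₀ : Γ}

/-- the image of the subgroup -/
def SS (ρ : Γ →* GL n F) (Γ₁ : Subgroup Γ) : Set (Matrix n n F) :=
  {X | ∃ γ ∈ Γ₁, X = (ρ γ : Matrix n n F)}

theorem Dt.wd_mem (h : Dt e ρ Γ₁ v γ₀) {γ : Γ} (hγ : γ ∈ Γ₁) :
    wd e ((ρ γ : Matrix n n F) *ᵥ v) v ∈ lieOf (SS ρ Γ₁) := by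
  classical
  have hnorm := h.normal
  obtain ⟨K, fK, aK, iK, ξ, hξ0⟩ := exists_generic (JJ ρ Γ₁) h.prime
  have hξ : ∀ p : MvPolynomial (n × n) F, pev ξ p = 0 ↔ p ∈ JJ ρ Γ₁ := hξ0
  have cK : CharZero K := charZero_of_injective_algebraMap (algebraMap F K).injective
  have hnon : Nonempty n := Fintype.card_pos_iff.1 (by have := h.card; omega)
  obtain ⟨eK, heK⟩ : ∃ eK, eK = e.map (algebraMap F K) := ⟨_, rfl⟩
  obtain ⟨vK, hvK⟩ : ∃ vK : n → K, vK = fun i => algebraMap F K (v i) := ⟨_, rfl⟩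
  obtain ⟨c, hc⟩ : ∃ c, c = v ⬝ᵥ (e *ᵥ v) := ⟨_, rfl⟩
  have hc0 : c ≠ 0 := by rw [hc]; exact h.vne
  have heKs : eKᵀ = eK := by
    rw [heK]
    change (eᵀ).map (algebraMap F K) = _
    rw [h.symm]
  have hvKc : vK ⬝ᵥ (eK *ᵥ vK) = algebraMap F K c := by
    rw [hvK, heK, map_vec, map_dot, hc]
  have hvK0 : vK ⬝ᵥ (eK *ᵥ vK) ≠ 0 := by
    rw [hvKc]
    exact (map_ne_zero _).2 hc0
  -- the determinant
  have hdet : IsUnit ξ.det := by
    rw [isUnit_iff_ne_zero]
    intro h0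
    obtain ⟨dp, hdp⟩ : ∃ dp : MvPolynomial (n × n) F,
        dp = (Matrix.of (fun i j => (MvPolynomial.X (i, j) : MvPolynomial (n × n) F))).det :=
      ⟨_, rfl⟩
    have hdetC : ∀ {L : Type _} [Field L] [Algebra F L] (M : Matrix n n L), pev M dp = M.det := by
      intro L _ _ M
      rw [hdp, AlgHom.map_det]
      congr 1
      ext i j
      simp [pev]
    have hdetF : ∀ (M : Matrix n n F), pev M dp = M.det := by
      intro M
      rw [hdp, AlgHom.map_det]
      congr 1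
      ext i j
      simp [pev]
    have h1 : dp ∈ JJ ρ Γ₁ := by
      rw [← hξ, hdetC, h0]
    have h2 := h1 1 Γ₁.one_mem
    rw [hdetF, map_one, Units.val_one, det_one] at h2
    exact one_ne_zero h2
  -- the closure
  obtain ⟨G, hG⟩ : ∃ G, G = zcl (imK ρ K Γ₁) := ⟨_, rfl⟩
  have hGmul : ∀ a ∈ G, ∀ b ∈ G, a * b ∈ G := by
    rw [hG]
    intro a ha b hb
    exact zcl_mul (imK_mul ρ Γ₁) ha hb
  have hGone : (1 : Matrix n n K) ∈ G := by
    rw [hG]
    exact subset_zcl (imK_unit ρ Γ₁) (imK_one ρ Γ₁)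
  have hξG : ξ ∈ G := by
    rw [hG]
    refine ⟨hdet, fun q hq => ?_⟩
    apply vanish_basechange (S := SS ρ Γ₁)
    · intro p hp
      rw [hξ]
      intro γ hγ
      exact hp _ ⟨γ, hγ, rfl⟩
    · rintro _ ⟨γ, hγ, rfl⟩
      exact hq _ ⟨γ, hγ, rfl⟩
  have hξG' : ξ⁻¹ ∈ G := by
    rw [hG] at hξG ⊢
    exact zcl_inv (imK_one ρ Γ₁) (imK_mul ρ Γ₁) (imK_unit ρ Γ₁) hξG
  -- the multiplier
  obtain ⟨μ, hμ0, hμ⟩ : ∃ μ : K, μ ≠ 0 ∧ ξᵀ * eK * ξ = μ • eK := by
    have he0 : e ≠ 0 := by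
      rintro rfl
      have := h.det
      rw [det_zero] at this
      exact not_isUnit_zero this
    obtain ⟨k, l, hkl⟩ : ∃ k l, e k l ≠ 0 := by
      by_contra hcon
      push Not at hcon
      apply he0
      ext k l
      exact hcon k l
    obtain ⟨μ, hμ⟩ : ∃ μ, μ = pev ξ (bp e (Pi.single k 1) (Pi.single l 1)) /
        algebraMap F K (e k l) := ⟨_, rfl⟩
    have hrel : ∀ i j, pev ξ (bp e (Pi.single i 1) (Pi.single j 1)) = μ * algebraMap F K (e i j) := by
      intro i j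
      have h1 : bp e (Pi.single i 1) (Pi.single j 1) * C (e k l) -
          bp e (Pi.single k 1) (Pi.single l 1) * C (e i j) ∈ JJ ρ Γ₁ := by
        intro γ _
        obtain ⟨ν, _, hν⟩ := h.sim γ
        rw [map_sub, map_mul, map_mul, pev_C, pev_C, pev_bp', pev_bp', psi_sim hν, psi_sim hν]
        have h2 : ∀ a b : n, (Pi.single a 1 : n → F) ⬝ᵥ (e *ᵥ (Pi.single b 1)) = e a b := by
          intro a b
          rw [single_one_dotProduct, mulVec_single_one]
          rfl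
        rw [h2, h2]
        change ν * e i j * e k l - ν * e k l * e i j = 0
        ring
      rw [← hξ, map_sub, map_mul, map_mul, pev_C, pev_C, sub_eq_zero] at h1
      have h3 : algebraMap F K (e k l) ≠ 0 := (map_ne_zero _).2 hkl
      rw [hμ]
      field_simp
      rw [h1]
    have hmat : ξᵀ * eK * ξ = μ • eK := by
      ext i j
      have h1 := hrel i j
      rw [pev_bp, single_map, single_map, ← heK] at h1
      rw [Matrix.smul_apply, smul_eq_mul, heK, Matrix.map_apply, ← h1, ← heK]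
      have h2 : (ξᵀ * eK * ξ) i j = (Pi.single i 1 : n → K) ⬝ᵥ
          ((ξᵀ * eK * ξ) *ᵥ (Pi.single j 1)) := by
        rw [single_one_dotProduct, mulVec_single_one]
        rfl
      rw [h2, ← mulVec_mulVec, ← mulVec_mulVec, dotProduct_mulVec _ ξᵀ, vecMul_transpose]
    refine ⟨μ, ?_, hmat⟩
    rintro rfl
    rw [zero_smul] at hmat
    have h1 : IsUnit (ξᵀ * eK * ξ).det := by
      have h2 : IsUnit eK.det := by
        have := h.det.map (algebraMap F K)
        rwa [RingHom.map_det, RingHom.mapMatrix_apply, ← heK] at this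
      rw [det_mul, det_mul, det_transpose]
      exact (hdet.mul h2).mul hdet
    rw [hmat, det_zero] at h1
    exact not_isUnit_zero h1
  -- the two polynomials
  obtain ⟨A, hA⟩ : ∃ A, A = pev ξ (lp (e *ᵥ v) v) := ⟨_, rfl⟩
  obtain ⟨B, hB⟩ : ∃ B, B = pev ξ (qp e v) := ⟨_, rfl⟩
  have hA' : (ξ *ᵥ vK) ⬝ᵥ (eK *ᵥ vK) = A := by
    rw [hA, pev_lp, hvK, heK, map_vec, dotProduct_comm]
  have hB' : (ξ *ᵥ vK) ⬝ᵥ (eK *ᵥ (ξ *ᵥ vK)) = B := by
    rw [hB, pev_qp, hvK, heK]
  have hB0 : B ≠ 0 := by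
    rw [← hB', psi_sim hμ, hvKc]
    exact mul_ne_zero hμ0 ((map_ne_zero _).2 hc0)
  have hne : A ^ 2 - B * algebraMap F K c ≠ 0 := by
    intro h0
    apply h.nc
    rw [← hξ, map_sub, map_pow, map_mul, pev_C, ← hA, ← hB, ← hc]
    exact h0
  obtain ⟨d, hd⟩ := IsAlgClosed.exists_pow_nat_eq (A ^ 2 - B * algebraMap F K c) (n := 2)
    (by norm_num)
  have hd0 : d ≠ 0 := by
    rintro rfl
    rw [zero_pow two_ne_zero] at hd
    exact hne hd.symm
  obtain ⟨s, hs0, hs1, hs2⟩ := rf_mul_rf_gam heKs (u := ξ *ᵥ vK) (w := vK)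
    (by rw [hB']; exact hB0) hvK0 hd0 (by rw [hA', hB', hvKc]; exact hd)
  rw [hA', hB', hvKc] at hs1
  obtain ⟨Y, hY⟩ : ∃ Y, Y = d⁻¹ • wd eK (ξ *ᵥ vK) vK := ⟨_, rfl⟩
  rw [← hY] at hs2
  have hYY : Y * Y * Y = Y := by
    rw [hY]
    apply smul_cube hd0
    rw [wd_cube heKs, hA', hB', hvKc, hd]
  -- infinite order
  have hinf : ∀ m : ℕ, 0 < m → s ^ m ≠ 1 := by
    intro m hm hsm
    have hW1 : A ^ 2 / (B * algebraMap F K c) ≠ 1 := by
      intro h1
      rw [div_eq_one_iff_eq (mul_ne_zero hB0 ((map_ne_zero _).2 hc0))] at h1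
      exact hne (sub_eq_zero.2 h1)
    obtain ⟨h₁, hh1, hh2⟩ := exists_h1 (F := F) hs0 hs1 hW1 hm hsm
    have h2 : hom h₁ (lp (e *ᵥ v) v ^ 2) (qp e v * C c) ∈ JJ ρ Γ₁ := by
      rw [← hξ, hom_map, map_pow, map_mul, pev_C, ← hA, ← hB,
        hom_eq _ _ _ (mul_ne_zero hB0 ((map_ne_zero _).2 hc0)), hh2, mul_zero]
    have h3 := h2 1 Γ₁.one_mem
    rw [map_one, Units.val_one, hom_map, map_pow, map_mul, pev_C, pev_lp', pev_qp', one_mulVec,
      ← hc] at h3
    have h4 : (e *ᵥ v) ⬝ᵥ v = c := by rw [dotProduct_comm, hc]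
    rw [h4] at h3
    have h5 : hom h₁ (c ^ 2) (c * c) = 0 := h3
    rw [hom_eq _ _ _ (mul_ne_zero hc0 hc0)] at h5
    have h6 : c ^ 2 / (c * c) = 1 := by
      rw [div_eq_one_iff_eq (mul_ne_zero hc0 hc0)]
      ring
    rw [h6] at h5
    have h7 : Polynomial.aeval (1 : F) h₁ = h₁.eval 1 := by
      rw [Polynomial.coe_aeval_eq_eval]
    rw [h7] at h5
    exact mul_ne_zero (pow_ne_zero _ (mul_ne_zero hc0 hc0)) hh1 h5
  -- the rotation is in the group
  have hτ : rf eK vK = (ρ γ₀ : Matrix n n F).map (algebraMap F K) := by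
    rw [h.refl, hvK, heK, rf_map]
  have hτ' : (ρ γ₀⁻¹ : Matrix n n F) = (ρ γ₀ : Matrix n n F) := by
    have h1 : (ρ γ₀ : Matrix n n F) * (ρ γ₀ : Matrix n n F) = 1 := by
      rw [h.refl]
      exact rf_sq h.vne
    have h2 : (ρ γ₀⁻¹ : Matrix n n F) * (ρ γ₀ : Matrix n n F) = 1 := by
      rw [← Units.val_mul, ← map_mul, inv_mul_cancel, map_one, Units.val_one]
    calc (ρ γ₀⁻¹ : Matrix n n F) = (ρ γ₀⁻¹ : Matrix n n F) *
          ((ρ γ₀ : Matrix n n F) * (ρ γ₀ : Matrix n n F)) := by rw [h1, mul_one]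
      _ = _ := by rw [← mul_assoc, h2, one_mul]
  have hrG : rf eK (ξ *ᵥ vK) * rf eK vK ∈ G := by
    rw [rf_conj heKs hdet hμ0 hμ]
    have h1 := zcl_conj (K := K) ρ Γ₁ γ₀ (M := ξ⁻¹) (by rw [← hG]; exact hξG')
    rw [hτ', ← hτ, ← hG] at h1
    have h2 : ξ * rf eK vK * ξ⁻¹ * rf eK vK = ξ * (rf eK vK * ξ⁻¹ * rf eK vK) := by
      simp only [mul_assoc]
    rw [h2]
    exact hGmul _ hξG _ h1
  have hpow : ∀ k : ℕ, gam Y (s ^ k) ∈ G := by
    intro k
    induction k with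
    | zero => rw [pow_zero, gam_one]; exact hGone
    | succ k ih =>
      rw [pow_succ, ← gam_mul hYY]
      apply hGmul _ ih
      rw [← hs2]
      exact hrG
  have hYG : Y ∈ lieOf G := lieOf_gam hGmul hYY hs0 hinf hpow
  have hwG : wd eK (ξ *ᵥ vK) vK ∈ lieOf G := by
    have h1 : wd eK (ξ *ᵥ vK) vK = d • Y := by
      rw [hY, smul_smul, mul_inv_cancel₀ hd0, one_smul]
    rw [h1]
    exact Submodule.smul_mem _ _ hYG
  -- descent
  rw [mem_lieOf]
  rintro p hp _ ⟨γ', hγ', rfl⟩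
  obtain ⟨ℓ, hℓ⟩ : ∃ ℓ : MvPolynomial (n × n) F, ℓ = ∑ k, ∑ l, wp e v k l *
      C (pev (ρ γ' : Matrix n n F) (dr (Matrix.single k l (1 : F)) p)) := ⟨_, rfl⟩
  have hpJ : ∀ g ∈ G, pev g (MvPolynomial.map (algebraMap F K) p) = 0 := by
    intro g hg
    rw [hG] at hg
    apply hg.2
    rintro _ ⟨δ, hδ, rfl⟩
    rw [pev_map, pev_algebraMap, hp _ ⟨δ, hδ, rfl⟩, map_zero]
  have h1 := (mem_lieOf.1 hwG) _ hpJ ((ρ γ' : Matrix n n F).map (algebraMap F K)) (by
    rw [hG]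
    exact subset_zcl (imK_unit ρ Γ₁) ⟨γ', hγ', rfl⟩)
  rw [pev_dr_sum] at h1
  have h2 : ℓ ∈ JJ ρ Γ₁ := by
    rw [← hξ, hℓ, ← h1, map_sum]
    apply Finset.sum_congr rfl
    intro k _
    rw [map_sum]
    apply Finset.sum_congr rfl
    intro l _
    rw [map_mul, pev_C, pev_wp, ← heK, ← hvK]
    congr 1
    have h3 : (Matrix.single k l (1 : K)) = (Matrix.single k l (1 : F)).map (algebraMap F K) := by
      rw [map_single, map_one]
    rw [h3, dr_map, pev_map, pev_algebraMap]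
  have h3 := h2 γ hγ
  rw [hℓ, map_sum] at h3
  rw [pev_dr_sum, ← h3]
  apply Finset.sum_congr rfl
  intro k _
  rw [map_sum]
  apply Finset.sum_congr rfl
  intro l _
  rw [map_mul, pev_C, pev_wp']
  rfl

end main

end Pool.Agent.MT100B.H17
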