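import Pool.Agent.Helper17_MTB.Rot

/-!
# MT100B, module LAD: the orthogonal Lie algebra
-/

set_option autoImplicit false
set_option linter.unusedSectionVars false

universe u v w

namespace Pool.Agent.MT100B.H17

open MvPolynomial Matrix Pool.Agent.Helper78_MT Pool.Agent.Helper3_MT

variable {n : Type*} [Fintype n] [DecidableEq n]

section lin
variable {K : Type*} [Field K]

theorem wd_add_left (e : Matrix n n K) (a b w : n → K) : wd e (a + b) w = wd e a w + wd e b w := by
  unfold wd
  rw [mulVec_add, add_vecMulVec, vecMulVec_add]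
  abel

theorem wd_smul_left (e : Matrix n n K) (c : K) (a w : n → K) : wd e (c • a) w = c • wd e a w := by
  unfold wd
  rw [mulVec_smul, smul_vecMulVec, vecMulVec_smul, smul_sub]

theorem wd_zero_left (e : Matrix n n K) (w : n → K) : wd e 0 w = 0 := by
  have := wd_smul_left e 0 0 w
  rwa [zero_smul, zero_smul] at this

theorem wd_swap (e : Matrix n n K) (a w : n → K) : wd e a w = -wd e w a := by
  unfold wd
  rw [neg_sub]

/-- the infinitesimal rotations span the orthogonal Lie algebra -/
theorem so_span [NeZero (2 : K)] {e : Matrix n n K} (he : eᵀ = e) (hd : IsUnit e.det)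
    (L : Submodule K (Matrix n n K)) (hL : ∀ a b : n → K, wd e a b ∈ L) {X : Matrix n n K}
    (hX : Xᵀ * e + e * X = 0) : X ∈ L := by
  obtain ⟨M, hM⟩ : ∃ M, M = X * e⁻¹ := ⟨_, rfl⟩
  have hMt : Mᵀ = -M := by
    have h1 : Xᵀ * e = -(e * X) := eq_neg_of_add_eq_zero_left hX
    have h2 : e⁻¹ * Xᵀ = -(X * e⁻¹) := by
      calc e⁻¹ * Xᵀ = e⁻¹ * (Xᵀ * e) * e⁻¹ := by
            rw [mul_assoc, mul_assoc, mul_nonsing_inv e hd, mul_one]
        _ = _ := by
            rw [h1, mul_neg, neg_mul, ← mul_assoc, nonsing_inv_mul e hd, one_mul]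
    rw [hM, transpose_mul, transpose_nonsing_inv, he, h2]
  have hXM : X = M * e := by
    rw [hM, mul_assoc, nonsing_inv_mul e hd, mul_one]
  have hw : ∀ k l, wd e (Pi.single k 1) (Pi.single l 1) =
      (Matrix.single k l (1 : K) - Matrix.single l k 1) * e := by
    intro k l
    unfold wd
    have h1 : ∀ a b : n, vecMulVec (Pi.single a (1 : K)) (e *ᵥ Pi.single b 1) =
        Matrix.single a b 1 * e := by
      intro a b
      rw [single_eq_single_vecMulVec_single, vecMulVec_mul]
      congr 1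
      rw [← mulVec_transpose, he]
    rw [h1, h1, sub_mul]
  have h2 : (2 : K) • X = ∑ k, ∑ l, M k l • wd e (Pi.single k 1) (Pi.single l 1) := by
    have h3 : (2 : K) • M = ∑ k, ∑ l, M k l • (Matrix.single k l (1 : K) - Matrix.single l k 1) := by
      have h4 : M = ∑ k, ∑ l, M k l • Matrix.single k l (1 : K) := by
        conv_lhs => rw [matrix_eq_sum_single M]
        simp only [smul_single, smul_eq_mul, mul_one]
      have h5 : Mᵀ = ∑ k, ∑ l, M k l • Matrix.single l k (1 : K) := by
        conv_lhs => rw [h4]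
        simp only [transpose_sum, transpose_smul, transpose_single]
      have h6 : (2 : K) • M = M - Mᵀ := by
        rw [hMt, sub_neg_eq_add, two_smul]
      rw [h6]
      conv_lhs => rw [h5]; enter [1]; rw [h4]
      rw [← Finset.sum_sub_distrib]
      apply Finset.sum_congr rfl
      intro k _
      rw [← Finset.sum_sub_distrib]
      apply Finset.sum_congr rfl
      intro l _
      rw [smul_sub]
    rw [hXM, ← smul_mul_assoc, h3, Finset.sum_mul]
    apply Finset.sum_congr rfl
    intro k _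
    rw [Finset.sum_mul]
    apply Finset.sum_congr rfl
    intro l _
    rw [smul_mul_assoc, hw]
  have h3 : (2 : K) • X ∈ L := by
    rw [h2]
    exact Submodule.sum_mem _ (fun k _ => Submodule.sum_mem _ (fun l _ =>
      Submodule.smul_mem _ _ (hL _ _)))
  have h4 := Submodule.smul_mem L (2 : K)⁻¹ h3
  rwa [smul_smul, inv_mul_cancel₀ (NeZero.ne 2), one_smul] at h4

end lin

section main
variable {F Γ : Type*} [Field F] [CharZero F] [Group Γ]
variable {e : Matrix n n F} {ρ : Γ →* GL n F} {Γ₁ : Subgroup Γ} {v : n → F} {γ₀ : Γ}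

theorem Dt.wd_all (h : Dt e ρ Γ₁ v γ₀) (a b : n → F) : wd e a b ∈ lieOf (SS ρ Γ₁) := by
  -- the first argument
  have h1 : ∀ a : n → F, wd e a v ∈ lieOf (SS ρ Γ₁) := by
    intro a
    have ha : a ∈ Submodule.span F {y | ∃ δ ∈ Γ₁, y = (ρ δ : Matrix n n F) *ᵥ v} := by
      rw [h.span h.v0]
      exact Submodule.mem_top
    induction ha using Submodule.span_induction with
    | mem y hy =>
      obtain ⟨δ, hδ, rfl⟩ := hy
      exact h.wd_mem hδ
    | zero => rw [wd_zero_left]; exact Submodule.zero_mem _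
    | add x y _ _ hx hy => rw [wd_add_left]; exact Submodule.add_mem _ hx hy
    | smul c x _ hx => rw [wd_smul_left]; exact Submodule.smul_mem _ _ hx
  -- translates of the second argument
  have h2 : ∀ γ ∈ Γ₁, ∀ a : n → F, wd e a ((ρ γ : Matrix n n F) *ᵥ v) ∈ lieOf (SS ρ Γ₁) := by
    intro γ hγ a
    obtain ⟨μ, hμ0, hμ⟩ := h.sim γ
    have hinv : (ρ γ : Matrix n n F) * (ρ γ⁻¹ : Matrix n n F) = 1 := by
      rw [← Units.val_mul, ← map_mul, mul_inv_cancel, map_one, Units.val_one]
    have hinv' : (ρ γ⁻¹ : Matrix n n F) * (ρ γ : Matrix n n F) = 1 := by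
      rw [← Units.val_mul, ← map_mul, inv_mul_cancel, map_one, Units.val_one]
    have hu : IsUnit (ρ γ : Matrix n n F).det := (isUnit_iff_isUnit_det _).mp (ρ γ).isUnit
    have hinv2 : (ρ γ : Matrix n n F)⁻¹ = (ρ γ⁻¹ : Matrix n n F) := inv_eq_left_inv hinv'
    have h3 := lieOf_conj (G := SS ρ Γ₁) (g := (ρ γ : Matrix n n F))
      (g' := (ρ γ⁻¹ : Matrix n n F)) hinv' (by
        rintro _ ⟨δ, hδ, rfl⟩
        exact ⟨δ * γ, Γ₁.mul_mem hδ hγ, by rw [map_mul, Units.val_mul]⟩) (by
        rintro _ ⟨δ, hδ, rfl⟩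
        exact ⟨δ * γ⁻¹, Γ₁.mul_mem hδ (Γ₁.inv_mem hγ), by rw [map_mul, Units.val_mul]⟩)
      (h1 ((ρ γ⁻¹ : Matrix n n F) *ᵥ a))
    rw [← hinv2, wd_conj h.symm hu hμ0 hμ, hinv2, mulVec_mulVec, hinv, one_mulVec] at h3
    have h4 := Submodule.smul_mem _ μ h3
    rwa [smul_smul, mul_inv_cancel₀ hμ0, one_smul] at h4
  have hb : b ∈ Submodule.span F {y | ∃ δ ∈ Γ₁, y = (ρ δ : Matrix n n F) *ᵥ v} := by
    rw [h.span h.v0]
    exact Submodule.mem_top
  induction hb using Submodule.span_induction with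
  | mem y hy =>
    obtain ⟨δ, hδ, rfl⟩ := hy
    exact h2 δ hδ a
  | zero => rw [wd_swap, wd_zero_left, neg_zero]; exact Submodule.zero_mem _
  | add x y _ _ hx hy =>
    rw [wd_swap, wd_add_left, neg_add, ← wd_swap, ← wd_swap]
    exact Submodule.add_mem _ hx hy
  | smul c x _ hx =>
    rw [wd_swap, wd_smul_left, ← smul_neg, ← wd_swap]
    exact Submodule.smul_mem _ _ hx

variable {K : Type*} [Field K] [CharZero K] [Algebra F K]

/-- **the orthogonal Lie algebra is contained in the Lie algebra of the closure** -/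
theorem Dt.so (h : Dt e ρ Γ₁ v γ₀) {X : Matrix n n K}
    (hX : Xᵀ * e.map (algebraMap F K) + e.map (algebraMap F K) * X = 0) :
    X ∈ lieOf (zcl (imK ρ K Γ₁)) := by
  have him : (fun M : Matrix n n F => M.map (algebraMap F K)) '' (SS ρ Γ₁) = imK ρ K Γ₁ := by
    ext M
    constructor
    · rintro ⟨_, ⟨γ, hγ, rfl⟩, rfl⟩
      exact ⟨γ, hγ, rfl⟩
    · rintro ⟨γ, hγ, rfl⟩
      exact ⟨_, ⟨γ, hγ, rfl⟩, rfl⟩
  have heK : (e.map (algebraMap F K))ᵀ = e.map (algebraMap F K) := by
    change (eᵀ).map (algebraMap F K) = _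
    rw [h.symm]
  have hdK : IsUnit (e.map (algebraMap F K)).det := by
    have := h.det.map (algebraMap F K)
    rwa [RingHom.map_det, RingHom.mapMatrix_apply] at this
  have h1 : lieOf (imK ρ K Γ₁) ≤ lieOf (zcl (imK ρ K Γ₁)) :=
    lieOf_mono (subset_zcl (imK_unit ρ Γ₁)) (imK_one ρ Γ₁)
      (fun a ha b hb => zcl_mul (imK_mul ρ Γ₁) ha hb)
  apply h1
  apply so_span heK hdK _ _ hX
  -- bilinearity over `K`
  have h2 : ∀ a b : n → F, wd (e.map (algebraMap F K)) (fun i => algebraMap F K (a i))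
      (fun i => algebraMap F K (b i)) ∈ lieOf (imK ρ K Γ₁) := by
    intro a b
    rw [wd_map, ← him]
    exact lie_basechange (h.wd_all a b)
  have h3 : ∀ (a : n → K) (k : n), wd (e.map (algebraMap F K)) a (Pi.single k 1) ∈
      lieOf (imK ρ K Γ₁) := by
    intro a k
    have h4 : a = ∑ i, a i • (Pi.single i (1 : K) : n → K) := by
      ext j
      simp [Finset.sum_apply, Pi.single_apply]
    rw [h4]
    have h5 : ∀ (s : Finset n), wd (e.map (algebraMap F K))
        (∑ i ∈ s, a i • (Pi.single i (1 : K) : n → K)) (Pi.single k 1) ∈ lieOf (imK ρ K Γ₁) := by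
      intro s
      induction s using Finset.induction_on with
      | empty => rw [Finset.sum_empty, wd_zero_left]; exact Submodule.zero_mem _
      | insert i s hi ih =>
        rw [Finset.sum_insert hi, wd_add_left, wd_smul_left]
        refine Submodule.add_mem _ (Submodule.smul_mem _ _ ?_) ih
        have h6 := h2 (Pi.single i 1) (Pi.single k 1)
        rwa [single_map, single_map] at h6
    exact h5 Finset.univ
  intro a b
  have h4 : b = ∑ i, b i • (Pi.single i (1 : K) : n → K) := by
    ext j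
    simp [Finset.sum_apply, Pi.single_apply]
  rw [h4]
  have h5 : ∀ (s : Finset n), wd (e.map (algebraMap F K)) a
      (∑ i ∈ s, b i • (Pi.single i (1 : K) : n → K)) ∈ lieOf (imK ρ K Γ₁) := by
    intro s
    induction s using Finset.induction_on with
    | empty => rw [Finset.sum_empty, wd_swap, wd_zero_left, neg_zero]; exact Submodule.zero_mem _
    | insert i s hi ih =>
      rw [Finset.sum_insert hi, wd_swap, wd_add_left, wd_smul_left, neg_add, ← smul_neg,
        ← wd_swap, ← wd_swap]
      exact Submodule.add_mem _ (Submodule.smul_mem _ _ (h3 a i)) ih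
  exact h5 Finset.univ

end main

end Pool.Agent.MT100B.H17
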