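import Pool.Agent.Helper78_MT.GroupA

/-!
# MT100B, module LAD: tori in a closed monoid
-/

set_option autoImplicit false
set_option linter.unusedSectionVars false

namespace Pool.Agent.MT100B.H17

open MvPolynomial Matrix Pool.Agent.Helper78_MT

variable {n : Type*} [Fintype n] [DecidableEq n] {K : Type*} [Field K] [CharZero K]

/-- the one parameter group with generator `X`, `X ^ 3 = X` -/
noncomputable def gam (X : Matrix n n K) (s : K) : Matrix n n K :=
  (1 - X * X) + s • ((1 / 2 : K) • (X * X + X)) + s⁻¹ • ((1 / 2 : K) • (X * X - X))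

theorem gam_one (X : Matrix n n K) : gam X 1 = 1 := by
  unfold gam
  rw [inv_one, one_smul, one_smul, add_assoc, ← smul_add]
  have h : X * X + X + (X * X - X) = (2 : K) • (X * X) := by rw [two_smul]; abel
  rw [h, smul_smul]
  norm_num

theorem gam_mul_X {X : Matrix n n K} (hX : X * X * X = X) (s : K) :
    gam X s * X = s • ((1 / 2 : K) • (X * X + X)) - s⁻¹ • ((1 / 2 : K) • (X * X - X)) := by
  unfold gam
  simp only [add_mul, sub_mul, smul_mul_assoc, one_mul, hX]
  rw [sub_self, zero_add, sub_eq_add_neg _ (s⁻¹ • _), ← smul_neg, ← smul_neg, neg_sub,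
    add_comm X (X * X)]

theorem gam_mul {X : Matrix n n K} (hX : X * X * X = X) {s t : K} :
    gam X s * gam X t = gam X (s * t) := by
  have h4 : X * X * (X * X) = X * X := by rw [← mul_assoc, hX]
  have h3 : X * (X * X) = X := by rw [← mul_assoc, hX]
  unfold gam
  simp only [add_mul, sub_mul, mul_add, mul_sub, smul_mul_assoc, mul_smul_comm, one_mul, mul_one,
    hX, h4, h3, smul_add, smul_sub, mul_inv, smul_smul]
  module

/-- the value of a polynomial along a translate of the one parameter group -/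
theorem exists_poly {X : Matrix n n K} (hX : X * X * X = X) (g : Matrix n n K)
    (p : MvPolynomial (n × n) K) : ∃ (N : ℕ) (Q : Polynomial K), ∀ s : K, s ≠ 0 →
      s ^ N * pev (g * gam X s) p = Q.eval s ∧
      s ^ N * pev (g * gam X s) (dr X p) = s * (Polynomial.derivative Q).eval s - N * Q.eval s := by
  induction p using MvPolynomial.induction_on with
  | C c =>
    refine ⟨0, Polynomial.C c, ?_⟩
    intro s _
    simp [pev_C]
  | add p q hp hq =>
    obtain ⟨N₁, Q₁, h₁⟩ := hp
    obtain ⟨N₂, Q₂, h₂⟩ := hq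
    refine ⟨N₁ + N₂, Polynomial.X ^ N₂ * Q₁ + Polynomial.X ^ N₁ * Q₂, ?_⟩
    intro s hs
    obtain ⟨a1, b1⟩ := h₁ s hs
    obtain ⟨a2, b2⟩ := h₂ s hs
    have e : ∀ N : ℕ, s * (Polynomial.derivative ((Polynomial.X : Polynomial K) ^ N)).eval s =
        N * s ^ N := by
      intro N
      cases N with
      | zero => simp
      | succ N =>
        rw [Polynomial.derivative_X_pow]
        simp only [Polynomial.eval_mul, Polynomial.eval_C, Polynomial.eval_pow, Polynomial.eval_X,
          Nat.add_sub_cancel]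
        ring
    constructor
    · rw [map_add, Polynomial.eval_add, Polynomial.eval_mul, Polynomial.eval_mul,
        Polynomial.eval_pow, Polynomial.eval_pow, Polynomial.eval_X, ← a1, ← a2]
      ring
    · have e1 := e N₁
      have e2 := e N₂
      rw [map_add, map_add, Polynomial.derivative_add, Polynomial.derivative_mul,
        Polynomial.derivative_mul]
      simp only [Polynomial.eval_add, Polynomial.eval_mul, Polynomial.eval_pow, Polynomial.eval_X]
      push_cast
      linear_combination s ^ N₂ * b1 + s ^ N₁ * b2 - Q₁.eval s * e2 - Q₂.eval s * e1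
  | mul_X p ij hp =>
    obtain ⟨N, Q, h⟩ := hp
    obtain ⟨U, hU⟩ : ∃ U, U = (1 / 2 : K) • (X * X + X) := ⟨_, rfl⟩
    obtain ⟨V, hV⟩ : ∃ V, V = (1 / 2 : K) • (X * X - X) := ⟨_, rfl⟩
    obtain ⟨A, hA⟩ : ∃ A, A = (g * (1 - X * X)) ij.1 ij.2 := ⟨_, rfl⟩
    obtain ⟨B, hB⟩ : ∃ B, B = (g * U) ij.1 ij.2 := ⟨_, rfl⟩
    obtain ⟨D, hD⟩ : ∃ D, D = (g * V) ij.1 ij.2 := ⟨_, rfl⟩
    have hg1 : ∀ s : K, (g * gam X s) ij.1 ij.2 = A + s * B + s⁻¹ * D := by
      intro s
      unfold gam
      rw [← hU, ← hV]
      rw [mul_add, mul_add, mul_smul_comm, mul_smul_comm, Matrix.add_apply, Matrix.add_apply,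
        Matrix.smul_apply, Matrix.smul_apply, ← hA, ← hB, ← hD, smul_eq_mul, smul_eq_mul]
    have hg2 : ∀ s : K, pev (g * gam X s) (dr X (MvPolynomial.X ij)) = s * B - s⁻¹ * D := by
      intro s
      have h1 : pev (g * gam X s) (dr X (MvPolynomial.X ij)) = (g * gam X s * X) ij.1 ij.2 := by
        rw [dr_X, map_sum, Matrix.mul_apply]
        apply Finset.sum_congr rfl
        intro k _
        rw [map_smul, pev_X, smul_eq_mul, mul_comm]
      rw [h1, mul_assoc, gam_mul_X hX, ← hU, ← hV, mul_sub, mul_smul_comm, mul_smul_comm, Matrix.sub_apply,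
        Matrix.smul_apply, Matrix.smul_apply, ← hB, ← hD, smul_eq_mul, smul_eq_mul]
    refine ⟨N + 1, Q * (Polynomial.C A * Polynomial.X + Polynomial.C B * Polynomial.X ^ 2 +
      Polynomial.C D), ?_⟩
    intro s hs
    obtain ⟨a, b⟩ := h s hs
    constructor
    · rw [map_mul, pev_X, hg1]
      simp only [Polynomial.eval_mul, Polynomial.eval_add, Polynomial.eval_C, Polynomial.eval_X,
        Polynomial.eval_pow]
      rw [← a]
      field_simp
      ring
    · have h1 : pev (g * gam X s) (dr X (p * MvPolynomial.X ij)) =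
          pev (g * gam X s) p * (s * B - s⁻¹ * D) +
            (A + s * B + s⁻¹ * D) * pev (g * gam X s) (dr X p) := by
        rw [Derivation.leibniz, map_add, smul_eq_mul, smul_eq_mul, map_mul, map_mul, hg2, pev_X,
          hg1]
      rw [h1, Polynomial.derivative_mul]
      simp only [Polynomial.derivative_add, Polynomial.derivative_mul, Polynomial.derivative_C,
        Polynomial.derivative_X, Polynomial.derivative_X_pow, Polynomial.eval_mul,
        Polynomial.eval_add, Polynomial.eval_C, Polynomial.eval_X, Polynomial.eval_pow]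
      have hsi : s * s⁻¹ = 1 := mul_inv_cancel₀ hs
      have e1 : s ^ (N + 1) * (pev (g * gam X s) p * (s * B - s⁻¹ * D) +
          (A + s * B + s⁻¹ * D) * pev (g * gam X s) (dr X p)) =
          (s ^ N * pev (g * gam X s) p) * (s * s * B - s * s⁻¹ * D) +
          (s * A + s * s * B + s * s⁻¹ * D) * (s ^ N * pev (g * gam X s) (dr X p)) := by
        ring
      rw [e1, a, b, hsi]
      push_cast
      simp
      ring

/-- the generator of a torus whose elements `gam X (s₀ ^ k)` are in the closed monoid -/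
theorem lieOf_gam {G : Set (Matrix n n K)} (hmul : ∀ a ∈ G, ∀ b ∈ G, a * b ∈ G) {X : Matrix n n K}
    (hX : X * X * X = X) {s₀ : K} (h0 : s₀ ≠ 0) (hs : ∀ m : ℕ, 0 < m → s₀ ^ m ≠ 1)
    (hG : ∀ k : ℕ, gam X (s₀ ^ k) ∈ G) : X ∈ lieOf G := by
  rw [mem_lieOf]
  intro p hp g hg
  obtain ⟨N, Q, h⟩ := exists_poly hX g p
  have hQ : Q = 0 := by
    apply Polynomial.eq_zero_of_infinite_isRoot
    have hinj : Function.Injective (fun k : ℕ => s₀ ^ k) := by
      intro a b hab
      change s₀ ^ a = s₀ ^ b at hab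
      by_contra hne
      rcases lt_or_gt_of_ne hne with hlt | hlt
      · apply hs (b - a) (by omega)
        have h1 : s₀ ^ b = s₀ ^ a * s₀ ^ (b - a) := by rw [← pow_add]; congr 1; omega
        rw [h1] at hab
        exact (mul_eq_left₀ (pow_ne_zero a h0)).1 hab.symm
      · apply hs (a - b) (by omega)
        have h1 : s₀ ^ a = s₀ ^ b * s₀ ^ (a - b) := by rw [← pow_add]; congr 1; omega
        rw [h1] at hab
        exact (mul_eq_left₀ (pow_ne_zero b h0)).1 hab
    apply Set.Infinite.mono _ (Set.infinite_range_of_injective hinj)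
    rintro _ ⟨k, rfl⟩
    have h1 := (h (s₀ ^ k) (pow_ne_zero k h0)).1
    rw [hp _ (hmul g hg _ (hG k)), mul_zero] at h1
    exact h1.symm
  have h1 := (h 1 one_ne_zero).2
  rw [hQ, gam_one, mul_one, one_pow, one_mul] at h1
  simpa using h1

end Pool.Agent.MT100B.H17
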